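import Pool.Agent.helper31.NU.PDefs

set_option autoImplicit false
set_option linter.all false

/-! Module P3: derivatives of entropy and Fisher information along a curve (pure). (helper41) -/

open MeasureTheory Filter Topology Set
open scoped ContDiff

noncomputable section

namespace Pool.Agent.helper31.NU

variable {M : Type*} [TopologicalSpace M] [CompactSpace M] [MeasurableSpace M] [BorelSpace M]
  {σ : Measure M} [IsProbabilityMeasure σ]

private theorem p3_key {F F' : ℝ → M → ℝ} {δ : ℝ} (hδ : 0 < δ)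
    (hF : ContinuousOn (fun p : ℝ × M => F p.1 p.2) (Icc (-δ) δ ×ˢ univ))
    (hF' : ContinuousOn (fun p : ℝ × M => F' p.1 p.2) (Icc (-δ) δ ×ˢ univ))
    (hd : ∀ s ∈ Icc (-δ) δ, ∀ x, HasDerivAt (fun s => F s x) (F' s x) s) :
    HasDerivAt (fun s => ∫ x, F s x ∂σ) (∫ x, F' 0 x ∂σ) 0 := by
  have hKc : IsCompact (Icc (-δ) δ ×ˢ (univ : Set M)) := isCompact_Icc.prod isCompact_univ
  obtain ⟨B, hB⟩ := hKc.exists_bound_of_continuousOn hF
  obtain ⟨B', hB'⟩ := hKc.exists_bound_of_continuousOn hF'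
  have hc : ∀ s ∈ Icc (-δ) δ, Continuous (F s) := by
    intro s hs
    have h1 : Continuous (fun x : M => (s, x)) := by fun_prop
    exact hF.comp_continuous h1 (fun x => ⟨hs, mem_univ _⟩)
  have hc' : ∀ s ∈ Icc (-δ) δ, Continuous (F' s) := by
    intro s hs
    have h1 : Continuous (fun x : M => (s, x)) := by fun_prop
    exact hF'.comp_continuous h1 (fun x => ⟨hs, mem_univ _⟩)
  have h0 : (0 : ℝ) ∈ Icc (-δ) δ := ⟨by linarith, hδ.le⟩
  have hnb : Icc (-δ) δ ∈ 𝓝 (0 : ℝ) := Icc_mem_nhds (by linarith) hδ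
  refine (hasDerivAt_integral_of_dominated_loc_of_deriv_le (μ := σ) (F := F) (F' := F')
    (bound := fun _ => B') hnb ?_ ?_ ?_ ?_ ?_ ?_).2
  · filter_upwards [hnb] with s hs
    exact (hc s hs).aestronglyMeasurable
  · exact Integrable.of_bound (hc 0 h0).aestronglyMeasurable B
      (Eventually.of_forall fun x => hB (0, x) ⟨h0, mem_univ _⟩)
  · exact (hc' 0 h0).aestronglyMeasurable
  · exact Eventually.of_forall fun x s hs => hB' (s, x) ⟨hs, mem_univ _⟩
  · exact integrable_const _
  · exact Eventually.of_forall fun x s hs => hd s hs x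

private theorem p3_delta {f g : M → ℝ} (hf : Continuous f) (hg : Continuous g)
    (h0 : ∀ x, 0 < f x) (C : ℝ) :
    ∃ δ : ℝ, 0 < δ ∧ ∀ s ∈ Icc (-δ) δ, 0 < 1 + C * s ^ 2 ∧
      ∀ x, 0 < f x + s * g x + C * s ^ 2 := by
  have h1 : ∀ᶠ s : ℝ in 𝓝 0, 0 < 1 + C * s ^ 2 := by
    have hcont : Continuous (fun s : ℝ => 1 + C * s ^ 2) := by fun_prop
    exact hcont.continuousAt.eventually_const_lt (by norm_num)
  have h2 : ∀ᶠ s : ℝ in 𝓝 0, ∀ x ∈ (univ : Set M), 0 < f x + s * g x + C * s ^ 2 := by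
    refine isCompact_univ.eventually_forall_of_forall_eventually ?_
    intro y _
    have hcont : Continuous (fun z : ℝ × M => f z.2 + z.1 * g z.2 + C * z.1 ^ 2) := by fun_prop
    refine hcont.continuousAt.eventually_const_lt ?_
    simpa using h0 y
  obtain ⟨ε, hε, hball⟩ := Metric.eventually_nhds_iff_ball.1 (h1.and h2)
  refine ⟨ε / 2, by linarith, fun s hs => ?_⟩
  have hsb : s ∈ Metric.ball (0 : ℝ) ε := by
    rw [Metric.mem_ball, Real.dist_eq, sub_zero, abs_lt]
    exact ⟨by linarith [hs.1], by linarith [hs.2]⟩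
  exact ⟨(hball s hsb).1, fun x => (hball s hsb).2 x (mem_univ x)⟩

private theorem p3_du (f g C s : ℝ) (hs : 0 < 1 + C * s ^ 2) :
    HasDerivAt (fun s : ℝ => (f + s * g + C * s ^ 2) / (1 + C * s ^ 2))
      (((g + 2 * C * s) * (1 + C * s ^ 2) - (f + s * g + C * s ^ 2) * (2 * C * s)) /
        (1 + C * s ^ 2) ^ 2) s := by
  have h1 : HasDerivAt (fun s : ℝ => f + s * g + C * s ^ 2) (g + 2 * C * s) s := by
    have ha : HasDerivAt (fun s : ℝ => s * g) (1 * g) s := (hasDerivAt_id s).mul_const g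
    have hb : HasDerivAt (fun s : ℝ => C * s ^ 2) (C * (2 * s)) s := by
      have := (hasDerivAt_pow 2 s).const_mul C
      simpa using this
    have hc := (ha.const_add f).add hb
    have he : (1 * g + C * (2 * s)) = g + 2 * C * s := by ring
    rw [he] at hc
    exact hc
  have h2 : HasDerivAt (fun s : ℝ => 1 + C * s ^ 2) (2 * C * s) s := by
    have hb : HasDerivAt (fun s : ℝ => C * s ^ 2) (C * (2 * s)) s := by
      have := (hasDerivAt_pow 2 s).const_mul C
      simpa using this
    have hc := hb.const_add 1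
    have he : C * (2 * s) = 2 * C * s := by ring
    rw [he] at hc
    exact hc
  exact h1.div h2 hs.ne'

/-- The curve `(f + s g + C s²)/(1 + C s²)` has derivative `g` at `s = 0`.
(`hasDerivAt_integral_of_dominated_loc_of_deriv_le`, everything is continuous on a compact set
and `f ≥ m > 0`.) -/
theorem hasDerivAt_ent {f g : M → ℝ} (hf : Continuous f) (hg : Continuous g)
    (h0 : ∀ x, 0 < f x) (C : ℝ) :
    HasDerivAt (fun s : ℝ => ∫ x, ((f x + s * g x + C * s ^ 2) / (1 + C * s ^ 2)) *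
      Real.log ((f x + s * g x + C * s ^ 2) / (1 + C * s ^ 2)) ∂σ)
      (∫ x, g x * (Real.log (f x) + 1) ∂σ) 0 := by
  obtain ⟨δ, hδ, H⟩ := p3_delta hf hg h0 C
  set U : ℝ → M → ℝ := fun s x => (f x + s * g x + C * s ^ 2) / (1 + C * s ^ 2) with hU
  set V : ℝ → M → ℝ := fun s x =>
    ((g x + 2 * C * s) * (1 + C * s ^ 2) - (f x + s * g x + C * s ^ 2) * (2 * C * s)) /
        (1 + C * s ^ 2) ^ 2 with hV
  have hUpos : ∀ s ∈ Icc (-δ) δ, ∀ x, 0 < U s x := fun s hs x =>
    div_pos ((H s hs).2 x) (H s hs).1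
  have hUc : ContinuousOn (fun p : ℝ × M => U p.1 p.2) (Icc (-δ) δ ×ˢ univ) := by
    refine ContinuousOn.div ?_ ?_ ?_
    · exact Continuous.continuousOn (by fun_prop)
    · exact Continuous.continuousOn (by fun_prop)
    · rintro ⟨s, x⟩ ⟨hs, _⟩
      exact (H s hs).1.ne'
  have hVc : ContinuousOn (fun p : ℝ × M => V p.1 p.2) (Icc (-δ) δ ×ˢ univ) := by
    refine ContinuousOn.div ?_ ?_ ?_
    · exact Continuous.continuousOn (by fun_prop)
    · exact Continuous.continuousOn (by fun_prop)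
    · rintro ⟨s, x⟩ ⟨hs, _⟩
      exact pow_ne_zero 2 (H s hs).1.ne'
  have hLc : ContinuousOn (fun p : ℝ × M => Real.log (U p.1 p.2)) (Icc (-δ) δ ×ˢ univ) := by
    refine hUc.log ?_
    rintro ⟨s, x⟩ ⟨hs, _⟩
    exact (hUpos s hs x).ne'
  have key := p3_key (σ := σ) (F := fun s x => U s x * Real.log (U s x))
    (F' := fun s x => V s x * (Real.log (U s x) + 1)) hδ (hUc.mul hLc)
    (hVc.mul (hLc.add continuousOn_const)) (by
      intro s hs x
      have h1 : HasDerivAt (fun s => U s x) (V s x) s := p3_du (f x) (g x) C s (H s hs).1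
      have h2 := h1.mul (h1.log (hUpos s hs x).ne')
      have he : V s x * Real.log (U s x) + U s x * (V s x / U s x) =
          V s x * (Real.log (U s x) + 1) := by
        have := (hUpos s hs x).ne'
        field_simp
      rw [he] at h2
      exact h2)
  have he : (∫ x, V 0 x * (Real.log (U 0 x) + 1) ∂σ) = ∫ x, g x * (Real.log (f x) + 1) ∂σ := by
    refine integral_congr_ae (Eventually.of_forall fun x => ?_)
    simp [hU, hV]
  rw [he] at key
  exact key

theorem hasDerivAt_fisher {f g A B E : M → ℝ} (hf : Continuous f) (hg : Continuous g)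
    (hA : Continuous A) (hB : Continuous B) (hE : Continuous E) (h0 : ∀ x, 0 < f x) (C : ℝ) :
    HasDerivAt (fun s : ℝ => ∫ x, ((A x + 2 * s * B x + s ^ 2 * E x) / (1 + C * s ^ 2) ^ 2) /
      ((f x + s * g x + C * s ^ 2) / (1 + C * s ^ 2)) ∂σ)
      (∫ x, (2 * B x / f x - A x * g x / f x ^ 2) ∂σ) 0 := by
  obtain ⟨δ, hδ, H⟩ := p3_delta hf hg h0 C
  set U : ℝ → M → ℝ := fun s x => (f x + s * g x + C * s ^ 2) / (1 + C * s ^ 2) with hU
  set V : ℝ → M → ℝ := fun s x =>
    ((g x + 2 * C * s) * (1 + C * s ^ 2) - (f x + s * g x + C * s ^ 2) * (2 * C * s)) /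
        (1 + C * s ^ 2) ^ 2 with hV
  set W : ℝ → M → ℝ := fun s x => (A x + 2 * s * B x + s ^ 2 * E x) / (1 + C * s ^ 2) ^ 2
    with hW
  set Z : ℝ → M → ℝ := fun s x => ((2 * B x + 2 * s * E x) * (1 + C * s ^ 2) ^ 2 -
    (A x + 2 * s * B x + s ^ 2 * E x) * (2 * (1 + C * s ^ 2) * (2 * C * s))) /
      ((1 + C * s ^ 2) ^ 2) ^ 2 with hZ
  have hUpos : ∀ s ∈ Icc (-δ) δ, ∀ x, 0 < U s x := fun s hs x =>
    div_pos ((H s hs).2 x) (H s hs).1
  have hUc : ContinuousOn (fun p : ℝ × M => U p.1 p.2) (Icc (-δ) δ ×ˢ univ) := by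
    refine ContinuousOn.div ?_ ?_ ?_
    · exact Continuous.continuousOn (by fun_prop)
    · exact Continuous.continuousOn (by fun_prop)
    · rintro ⟨s, x⟩ ⟨hs, _⟩
      exact (H s hs).1.ne'
  have hVc : ContinuousOn (fun p : ℝ × M => V p.1 p.2) (Icc (-δ) δ ×ˢ univ) := by
    refine ContinuousOn.div ?_ ?_ ?_
    · exact Continuous.continuousOn (by fun_prop)
    · exact Continuous.continuousOn (by fun_prop)
    · rintro ⟨s, x⟩ ⟨hs, _⟩
      exact pow_ne_zero 2 (H s hs).1.ne'
  have hWc : ContinuousOn (fun p : ℝ × M => W p.1 p.2) (Icc (-δ) δ ×ˢ univ) := by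
    refine ContinuousOn.div ?_ ?_ ?_
    · exact Continuous.continuousOn (by fun_prop)
    · exact Continuous.continuousOn (by fun_prop)
    · rintro ⟨s, x⟩ ⟨hs, _⟩
      exact pow_ne_zero 2 (H s hs).1.ne'
  have hZc : ContinuousOn (fun p : ℝ × M => Z p.1 p.2) (Icc (-δ) δ ×ˢ univ) := by
    refine ContinuousOn.div ?_ ?_ ?_
    · exact Continuous.continuousOn (by fun_prop)
    · exact Continuous.continuousOn (by fun_prop)
    · rintro ⟨s, x⟩ ⟨hs, _⟩
      exact pow_ne_zero 2 (pow_ne_zero 2 (H s hs).1.ne')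
  have key := p3_key (σ := σ) (F := fun s x => W s x / U s x)
    (F' := fun s x => (Z s x * U s x - W s x * V s x) / U s x ^ 2) hδ
    (hWc.div hUc (by
      rintro ⟨s, x⟩ ⟨hs, _⟩
      exact (hUpos s hs x).ne'))
    (((hZc.mul hUc).sub (hWc.mul hVc)).div (hUc.pow 2) (by
      rintro ⟨s, x⟩ ⟨hs, _⟩
      exact pow_ne_zero 2 (hUpos s hs x).ne')) (by
      intro s hs x
      have h1 : HasDerivAt (fun s => U s x) (V s x) s := p3_du (f x) (g x) C s (H s hs).1
      have h2 : HasDerivAt (fun s => W s x) (Z s x) s := by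
        have ha : HasDerivAt (fun s : ℝ => A x + 2 * s * B x + s ^ 2 * E x)
            (2 * B x + 2 * s * E x) s := by
          have ha1 : HasDerivAt (fun s : ℝ => 2 * s * B x) (2 * 1 * B x) s :=
            ((hasDerivAt_id s).const_mul 2).mul_const (B x)
          have ha2 : HasDerivAt (fun s : ℝ => s ^ 2 * E x) (2 * s * E x) s := by
            have := (hasDerivAt_pow 2 s).mul_const (E x)
            simpa using this
          have ha3 := (ha1.const_add (A x)).add ha2
          have he : 2 * 1 * B x + 2 * s * E x = 2 * B x + 2 * s * E x := by ring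
          rw [he] at ha3
          exact ha3
        have hb : HasDerivAt (fun s : ℝ => (1 + C * s ^ 2) ^ 2)
            (2 * (1 + C * s ^ 2) * (2 * C * s)) s := by
          have hb1 : HasDerivAt (fun s : ℝ => 1 + C * s ^ 2) (2 * C * s) s := by
            have hb : HasDerivAt (fun s : ℝ => C * s ^ 2) (C * (2 * s)) s := by
              have := (hasDerivAt_pow 2 s).const_mul C
              simpa using this
            have hc := hb.const_add 1
            have he : C * (2 * s) = 2 * C * s := by ring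
            rw [he] at hc
            exact hc
          have := hb1.fun_pow 2
          simpa using this
        exact ha.div hb (pow_ne_zero 2 (H s hs).1.ne')
      exact h2.div h1 (hUpos s hs x).ne')
  have he : (∫ x, (Z 0 x * U 0 x - W 0 x * V 0 x) / U 0 x ^ 2 ∂σ) =
      ∫ x, (2 * B x / f x - A x * g x / f x ^ 2) ∂σ := by
    refine integral_congr_ae (Eventually.of_forall fun x => ?_)
    have hfx := (h0 x).ne'
    simp only [hU, hV, hW, hZ]
    norm_num
    field_simp
  rw [he] at key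
  exact key

end Pool.Agent.helper31.NU
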