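import Pool.Agent.helper63.NU.Defs2

set_option autoImplicit false
set_option linter.all false

/-! Module A1: Wirtinger calculus, first order (helper41). -/

open MeasureTheory Filter Topology Set
open scoped ContDiff Manifold Matrix ENNReal ComplexOrder

noncomputable section

namespace Pool.Agent.helper63.NU

variable {n : ℕ}

namespace A1

/-- the `∂/∂z_j` part of a real linear form -/
def dzL (L : E n →L[ℝ] ℂ) (j : Fin n) : ℂ :=
  (L (Pi.single j 1) - Complex.I * L (Pi.single j Complex.I)) / 2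

/-- the `∂/∂z̄_j` part of a real linear form -/
def dbL (L : E n →L[ℝ] ℂ) (j : Fin n) : ℂ :=
  (L (Pi.single j 1) + Complex.I * L (Pi.single j Complex.I)) / 2

theorem dz_eq (f : E n → ℂ) (y : E n) (j : Fin n) : dz j f y = dzL (fderiv ℝ f y) j := rfl

theorem db_eq (f : E n → ℂ) (y : E n) (j : Fin n) : db j f y = dbL (fderiv ℝ f y) j := rfl

theorem single_eq (j : Fin n) (z : ℂ) :
    (Pi.single j z : E n) = z.re • (Pi.single j 1 : E n) + z.im • (Pi.single j Complex.I : E n) := by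
  ext i
  by_cases h : i = j
  · subst h
    simp only [Pi.add_apply, Pi.smul_apply, Pi.single_eq_same, Complex.real_smul, mul_one]
    exact (Complex.re_add_im z).symm
  · simp [Pi.single_eq_of_ne h]

theorem apply_single (L : E n →L[ℝ] ℂ) (j : Fin n) (z : ℂ) :
    L (Pi.single j z) = dzL L j * z + dbL L j * (starRingEnd ℂ) z := by
  rw [single_eq, map_add, map_smul, map_smul, Complex.real_smul, Complex.real_smul]
  unfold dzL dbL
  apply Complex.ext <;>
  simp only [Complex.add_re, Complex.add_im, Complex.mul_re, Complex.mul_im, Complex.sub_re,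
    Complex.sub_im, Complex.I_re, Complex.I_im, Complex.ofReal_re, Complex.ofReal_im,
    Complex.conj_re, Complex.conj_im, Complex.div_ofNat_re, Complex.div_ofNat_im] <;> ring

theorem apply_eq (L : E n →L[ℝ] ℂ) (v : E n) :
    L v = ∑ j, (dzL L j * v j + dbL L j * (starRingEnd ℂ) (v j)) := by
  conv_lhs => rw [← Finset.univ_sum_single v]
  rw [map_sum]
  exact Finset.sum_congr rfl (fun j _ => apply_single L j (v j))

theorem dzL_add (L L' : E n →L[ℝ] ℂ) (j : Fin n) : dzL (L + L') j = dzL L j + dzL L' j := by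
  simp only [dzL, ContinuousLinearMap.add_apply]; ring

theorem dbL_add (L L' : E n →L[ℝ] ℂ) (j : Fin n) : dbL (L + L') j = dbL L j + dbL L' j := by
  simp only [dbL, ContinuousLinearMap.add_apply]; ring

theorem dzL_sub (L L' : E n →L[ℝ] ℂ) (j : Fin n) : dzL (L - L') j = dzL L j - dzL L' j := by
  simp only [dzL, ContinuousLinearMap.sub_apply]; ring

theorem dbL_sub (L L' : E n →L[ℝ] ℂ) (j : Fin n) : dbL (L - L') j = dbL L j - dbL L' j := by
  simp only [dbL, ContinuousLinearMap.sub_apply]; ring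

theorem dzL_neg (L : E n →L[ℝ] ℂ) (j : Fin n) : dzL (-L) j = -dzL L j := by
  simp only [dzL, ContinuousLinearMap.neg_apply]; ring

theorem dbL_neg (L : E n →L[ℝ] ℂ) (j : Fin n) : dbL (-L) j = -dbL L j := by
  simp only [dbL, ContinuousLinearMap.neg_apply]; ring

theorem dzL_smul (c : ℂ) (L : E n →L[ℝ] ℂ) (j : Fin n) : dzL (c • L) j = c * dzL L j := by
  simp only [dzL, ContinuousLinearMap.smul_apply, smul_eq_mul]; ring

theorem dbL_smul (c : ℂ) (L : E n →L[ℝ] ℂ) (j : Fin n) : dbL (c • L) j = c * dbL L j := by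
  simp only [dbL, ContinuousLinearMap.smul_apply, smul_eq_mul]; ring

theorem dzL_zero (j : Fin n) : dzL (0 : E n →L[ℝ] ℂ) j = 0 := by
  simp [dzL]

theorem dbL_zero (j : Fin n) : dbL (0 : E n →L[ℝ] ℂ) j = 0 := by
  simp [dbL]

theorem dzL_sum {ι : Type*} (s : Finset ι) (L : ι → E n →L[ℝ] ℂ) (j : Fin n) :
    dzL (∑ i ∈ s, L i) j = ∑ i ∈ s, dzL (L i) j := by
  simp only [dzL, ContinuousLinearMap.sum_apply, Finset.mul_sum]
  rw [← Finset.sum_sub_distrib, Finset.sum_div]

theorem dbL_sum {ι : Type*} (s : Finset ι) (L : ι → E n →L[ℝ] ℂ) (j : Fin n) :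
    dbL (∑ i ∈ s, L i) j = ∑ i ∈ s, dbL (L i) j := by
  simp only [dbL, ContinuousLinearMap.sum_apply, Finset.mul_sum]
  rw [← Finset.sum_add_distrib, Finset.sum_div]

theorem fderiv_const_mul' (c : ℂ) (f : E n → ℂ) (y : E n) :
    fderiv ℝ (fun z => c * f z) y = c • fderiv ℝ f y := by
  by_cases hf : DifferentiableAt ℝ f y
  · exact (hf.hasFDerivAt.const_mul c).fderiv
  · by_cases hc : c = 0
    · subst hc
      ext v
      simp
    · have h : ¬ DifferentiableAt ℝ (fun z => c * f z) y := by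
        intro h
        apply hf
        have h2 := h.const_mul c⁻¹
        have e : (fun z => c⁻¹ * (c * f z)) = f := by
          funext z
          rw [← mul_assoc, inv_mul_cancel₀ hc, one_mul]
        rwa [e] at h2
      rw [fderiv_zero_of_not_differentiableAt hf, fderiv_zero_of_not_differentiableAt h]
      ext v
      simp

theorem fderiv_conj (f : E n → ℂ) (y v : E n) :
    fderiv ℝ (fun z => (starRingEnd ℂ) (f z)) y v = (starRingEnd ℂ) (fderiv ℝ f y v) := by
  have h := Complex.conjCLE.comp_fderiv (f := f) (x := y)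
  have e : (Complex.conjCLE ∘ f) = (fun z => (starRingEnd ℂ) (f z)) := by
    funext z; simp
  rw [e] at h
  rw [h]
  simp

end A1

open A1

theorem fderiv_eq_sum (f : E n → ℂ) (y v : E n) :
    fderiv ℝ f y v = ∑ j, (dz j f y * v j + db j f y * (starRingEnd ℂ) (v j)) :=
  apply_eq (fderiv ℝ f y) v

theorem dz_congr {f g : E n → ℂ} {y : E n} (h : f =ᶠ[𝓝 y] g) (j : Fin n) :
    dz j f y = dz j g y := by
  rw [dz_eq, dz_eq, h.fderiv_eq]

theorem db_congr {f g : E n → ℂ} {y : E n} (h : f =ᶠ[𝓝 y] g) (j : Fin n) :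
    db j f y = db j g y := by
  rw [db_eq, db_eq, h.fderiv_eq]

theorem dz_const (c : ℂ) (j : Fin n) (y : E n) : dz j (fun _ => c) y = 0 := by
  rw [dz_eq, fderiv_fun_const, Pi.zero_apply, dzL_zero]

theorem db_const (c : ℂ) (j : Fin n) (y : E n) : db j (fun _ => c) y = 0 := by
  rw [db_eq, fderiv_fun_const, Pi.zero_apply, dbL_zero]

theorem dz_add {f g : E n → ℂ} {y : E n} (hf : DifferentiableAt ℝ f y)
    (hg : DifferentiableAt ℝ g y) (j : Fin n) :
    dz j (fun z => f z + g z) y = dz j f y + dz j g y := by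
  rw [dz_eq, fderiv_fun_add hf hg, dzL_add]; rfl

theorem db_add {f g : E n → ℂ} {y : E n} (hf : DifferentiableAt ℝ f y)
    (hg : DifferentiableAt ℝ g y) (j : Fin n) :
    db j (fun z => f z + g z) y = db j f y + db j g y := by
  rw [db_eq, fderiv_fun_add hf hg, dbL_add]; rfl

theorem dz_sub {f g : E n → ℂ} {y : E n} (hf : DifferentiableAt ℝ f y)
    (hg : DifferentiableAt ℝ g y) (j : Fin n) :
    dz j (fun z => f z - g z) y = dz j f y - dz j g y := by
  rw [dz_eq, fderiv_fun_sub hf hg, dzL_sub]; rfl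

theorem db_sub {f g : E n → ℂ} {y : E n} (hf : DifferentiableAt ℝ f y)
    (hg : DifferentiableAt ℝ g y) (j : Fin n) :
    db j (fun z => f z - g z) y = db j f y - db j g y := by
  rw [db_eq, fderiv_fun_sub hf hg, dbL_sub]; rfl

theorem dz_neg (f : E n → ℂ) (y : E n) (j : Fin n) : dz j (fun z => -f z) y = -dz j f y := by
  rw [dz_eq, fderiv_fun_neg, dzL_neg]; rfl

theorem db_neg (f : E n → ℂ) (y : E n) (j : Fin n) : db j (fun z => -f z) y = -db j f y := by
  rw [db_eq, fderiv_fun_neg, dbL_neg]; rfl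

theorem dz_sum {ι : Type*} (s : Finset ι) {f : ι → E n → ℂ} {y : E n}
    (hf : ∀ i ∈ s, DifferentiableAt ℝ (f i) y) (j : Fin n) :
    dz j (fun z => ∑ i ∈ s, f i z) y = ∑ i ∈ s, dz j (f i) y := by
  rw [dz_eq, fderiv_fun_sum hf, dzL_sum]; rfl

theorem db_sum {ι : Type*} (s : Finset ι) {f : ι → E n → ℂ} {y : E n}
    (hf : ∀ i ∈ s, DifferentiableAt ℝ (f i) y) (j : Fin n) :
    db j (fun z => ∑ i ∈ s, f i z) y = ∑ i ∈ s, db j (f i) y := by
  rw [db_eq, fderiv_fun_sum hf, dbL_sum]; rfl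

theorem dz_mul {f g : E n → ℂ} {y : E n} (hf : DifferentiableAt ℝ f y)
    (hg : DifferentiableAt ℝ g y) (j : Fin n) :
    dz j (fun z => f z * g z) y = dz j f y * g y + f y * dz j g y := by
  rw [dz_eq, fderiv_fun_mul hf hg, dzL_add, dzL_smul, dzL_smul, ← dz_eq, ← dz_eq]; ring

theorem db_mul {f g : E n → ℂ} {y : E n} (hf : DifferentiableAt ℝ f y)
    (hg : DifferentiableAt ℝ g y) (j : Fin n) :
    db j (fun z => f z * g z) y = db j f y * g y + f y * db j g y := by
  rw [db_eq, fderiv_fun_mul hf hg, dbL_add, dbL_smul, dbL_smul, ← db_eq, ← db_eq]; ring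

theorem dz_const_mul (c : ℂ) (f : E n → ℂ) (y : E n) (j : Fin n) :
    dz j (fun z => c * f z) y = c * dz j f y := by
  rw [dz_eq, fderiv_const_mul', dzL_smul]; rfl

theorem db_const_mul (c : ℂ) (f : E n → ℂ) (y : E n) (j : Fin n) :
    db j (fun z => c * f z) y = c * db j f y := by
  rw [db_eq, fderiv_const_mul', dbL_smul]; rfl

theorem dz_conj (f : E n → ℂ) (y : E n) (j : Fin n) :
    dz j (fun z => (starRingEnd ℂ) (f z)) y = (starRingEnd ℂ) (db j f y) := by
  simp only [dz, db, fderiv_conj, map_div₀, map_add, map_mul, Complex.conj_I, map_ofNat]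
  ring

theorem db_conj (f : E n → ℂ) (y : E n) (j : Fin n) :
    db j (fun z => (starRingEnd ℂ) (f z)) y = (starRingEnd ℂ) (dz j f y) := by
  simp only [dz, db, fderiv_conj, map_div₀, map_sub, map_mul, Complex.conj_I, map_ofNat]
  ring

theorem A1.hol_apply {m : ℕ} {f : E n → E m} {y : E n} (hf : DifferentiableAt ℂ f y) (v : E n) :
    fderiv ℝ f y v = fderiv ℂ f y v := by
  rw [hf.fderiv_restrictScalars ℝ]; rfl

theorem A1.single_I (j : Fin n) :
    (Pi.single j Complex.I : E n) = Complex.I • (Pi.single j 1 : E n) := by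
  ext i
  by_cases h : i = j
  · subst h; simp
  · simp [Pi.single_eq_of_ne h]

theorem A1.hol_I {f : E n → ℂ} {y : E n} (hf : DifferentiableAt ℂ f y) (j : Fin n) :
    fderiv ℝ f y (Pi.single j Complex.I) = Complex.I * fderiv ℂ f y (Pi.single j 1) ∧
      fderiv ℝ f y (Pi.single j 1) = fderiv ℂ f y (Pi.single j 1) := by
  rw [hf.fderiv_restrictScalars ℝ]
  refine ⟨?_, rfl⟩
  show fderiv ℂ f y (Pi.single j Complex.I) = _
  rw [A1.single_I, map_smul, smul_eq_mul]

theorem db_hol {f : E n → ℂ} {y : E n} (hf : DifferentiableAt ℂ f y) (j : Fin n) :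
    db j f y = 0 := by
  obtain ⟨h1, h2⟩ := A1.hol_I hf j
  rw [db, h1, h2, ← mul_assoc, Complex.I_mul_I]; ring

theorem dz_hol {f : E n → ℂ} {y : E n} (hf : DifferentiableAt ℂ f y) (j : Fin n) :
    dz j f y = fderiv ℂ f y (Pi.single j 1) := by
  obtain ⟨h1, h2⟩ := A1.hol_I hf j
  rw [dz, h1, h2, ← mul_assoc, Complex.I_mul_I]; ring

theorem hol_of_db {U : Set (E n)} (hU : IsOpen U) {f : E n → ℂ} (hf : DifferentiableOn ℝ f U)
    (h : ∀ y ∈ U, ∀ j, db j f y = 0) : DifferentiableOn ℂ f U := by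
  intro y hy
  have h1 : DifferentiableAt ℝ f y := hf.differentiableAt (hU.mem_nhds hy)
  apply DifferentiableAt.differentiableWithinAt
  have h2 : HasFDerivAt f (∑ j, (dz j f y) • (ContinuousLinearMap.proj j : E n →L[ℂ] ℂ)) y := by
    apply hasFDerivAt_of_restrictScalars ℝ h1.hasFDerivAt
    ext v
    rw [fderiv_eq_sum]
    simp only [ContinuousLinearMap.coe_restrictScalars', ContinuousLinearMap.sum_apply,
      ContinuousLinearMap.smul_apply, ContinuousLinearMap.proj_apply, smul_eq_mul]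
    exact Finset.sum_congr rfl (fun j _ => by rw [h y hy j]; ring)
  exact h2.differentiableAt

theorem A1.comp_apply {τ : E n → E n} {f : E n → ℂ} {y : E n} (hτ : DifferentiableAt ℂ τ y)
    (hf : DifferentiableAt ℝ f (τ y)) (v : E n) :
    fderiv ℝ (fun z => f (τ z)) y v = fderiv ℝ f (τ y) (fderiv ℂ τ y v) := by
  have h1 : DifferentiableAt ℝ τ y := hτ.restrictScalars ℝ
  have h2 := fderiv_comp y hf h1
  have e : (f ∘ τ) = (fun z => f (τ z)) := rfl
  rw [e] at h2
  rw [h2, ContinuousLinearMap.comp_apply, A1.hol_apply hτ]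

theorem dz_comp {τ : E n → E n} {f : E n → ℂ} {y : E n} (hτ : DifferentiableAt ℂ τ y)
    (hf : DifferentiableAt ℝ f (τ y)) (j : Fin n) :
    dz j (fun z => f (τ z)) y = ∑ i, dz i f (τ y) * fderiv ℂ τ y (Pi.single j 1) i := by
  rw [dz, A1.comp_apply hτ hf, A1.comp_apply hτ hf, A1.single_I, map_smul, fderiv_eq_sum,
    fderiv_eq_sum, Finset.mul_sum, ← Finset.sum_sub_distrib, Finset.sum_div]
  refine Finset.sum_congr rfl (fun i _ => ?_)
  simp only [Pi.smul_apply, smul_eq_mul, map_mul, Complex.conj_I]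
  ring_nf
  rw [Complex.I_sq]; ring

theorem db_comp {τ : E n → E n} {f : E n → ℂ} {y : E n} (hτ : DifferentiableAt ℂ τ y)
    (hf : DifferentiableAt ℝ f (τ y)) (j : Fin n) :
    db j (fun z => f (τ z)) y
      = ∑ i, db i f (τ y) * (starRingEnd ℂ) (fderiv ℂ τ y (Pi.single j 1) i) := by
  rw [db, A1.comp_apply hτ hf, A1.comp_apply hτ hf, A1.single_I, map_smul, fderiv_eq_sum,
    fderiv_eq_sum, Finset.mul_sum, ← Finset.sum_add_distrib, Finset.sum_div]
  refine Finset.sum_congr rfl (fun i _ => ?_)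
  simp only [Pi.smul_apply, smul_eq_mul, map_mul, Complex.conj_I]
  ring_nf
  rw [Complex.I_sq]; ring

theorem A1.fderiv_ofReal {ψ : E n → ℝ} {y : E n} (hψ : DifferentiableAt ℝ ψ y) (v : E n) :
    fderiv ℝ (fun z => ((ψ z : ℝ) : ℂ)) y v = ((fderiv ℝ ψ y v : ℝ) : ℂ) := by
  have h := (Complex.ofRealCLM.hasFDerivAt (x := ψ y)).comp y hψ.hasFDerivAt
  have e : (Complex.ofRealCLM ∘ ψ) = (fun z => ((ψ z : ℝ) : ℂ)) := rfl
  have h2 : HasFDerivAt (fun z => ((ψ z : ℝ) : ℂ)) (Complex.ofRealCLM.comp (fderiv ℝ ψ y)) y := h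
  rw [h2.fderiv]; rfl

theorem A1.fderiv_real_comp {g : ℝ → ℝ} {ψ : E n → ℝ} {y : E n} (hg : DifferentiableAt ℝ g (ψ y))
    (hψ : DifferentiableAt ℝ ψ y) (v : E n) :
    fderiv ℝ (fun z => ((g (ψ z) : ℝ) : ℂ)) y v =
      ((deriv g (ψ y) : ℝ) : ℂ) * fderiv ℝ (fun z => ((ψ z : ℝ) : ℂ)) y v := by
  have h1 : HasFDerivAt (fun z => g (ψ z)) (deriv g (ψ y) • fderiv ℝ ψ y) y :=
    hg.hasDerivAt.comp_hasFDerivAt y hψ.hasFDerivAt
  rw [A1.fderiv_ofReal hψ, A1.fderiv_ofReal (ψ := fun z => g (ψ z)) h1.differentiableAt, h1.fderiv]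
  simp

/-- composition with a real function of one real variable -/
theorem dz_real_comp {g : ℝ → ℝ} {ψ : E n → ℝ} {y : E n} (hg : DifferentiableAt ℝ g (ψ y))
    (hψ : DifferentiableAt ℝ ψ y) (j : Fin n) :
    dz j (fun z => ((g (ψ z) : ℝ) : ℂ)) y = ((deriv g (ψ y) : ℝ) : ℂ) * dz j (fun z => ((ψ z : ℝ) : ℂ)) y := by
  rw [dz, dz, A1.fderiv_real_comp hg hψ, A1.fderiv_real_comp hg hψ]; ring

theorem db_real_comp {g : ℝ → ℝ} {ψ : E n → ℝ} {y : E n} (hg : DifferentiableAt ℝ g (ψ y))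
    (hψ : DifferentiableAt ℝ ψ y) (j : Fin n) :
    db j (fun z => ((g (ψ z) : ℝ) : ℂ)) y = ((deriv g (ψ y) : ℝ) : ℂ) * db j (fun z => ((ψ z : ℝ) : ℂ)) y := by
  rw [db, db, A1.fderiv_real_comp hg hψ, A1.fderiv_real_comp hg hψ]; ring

theorem dz_cexp {f : E n → ℂ} {y : E n} (hf : DifferentiableAt ℝ f y) (j : Fin n) :
    dz j (fun z => Complex.exp (f z)) y = Complex.exp (f y) * dz j f y := by
  rw [dz_eq, hf.hasFDerivAt.cexp.fderiv, dzL_smul]; rfl

theorem db_cexp {f : E n → ℂ} {y : E n} (hf : DifferentiableAt ℝ f y) (j : Fin n) :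
    db j (fun z => Complex.exp (f z)) y = Complex.exp (f y) * db j f y := by
  rw [db_eq, hf.hasFDerivAt.cexp.fderiv, dbL_smul]; rfl

theorem A1.contDiffOn_apply {U : Set (E n)} (hU : IsOpen U) {f : E n → ℂ}
    (hf : ContDiffOn ℝ ∞ f U) (v : E n) : ContDiffOn ℝ ∞ (fun y => fderiv ℝ f y v) U :=
  (hf.fderiv_of_isOpen hU (by simp)).clm_apply contDiffOn_const

theorem contDiffOn_dz {U : Set (E n)} (hU : IsOpen U) {f : E n → ℂ} (hf : ContDiffOn ℝ ∞ f U)
    (j : Fin n) : ContDiffOn ℝ ∞ (dz j f) U :=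
  ((A1.contDiffOn_apply hU hf _).sub (contDiffOn_const.mul (A1.contDiffOn_apply hU hf _))).div_const 2

theorem contDiffOn_db {U : Set (E n)} (hU : IsOpen U) {f : E n → ℂ} (hf : ContDiffOn ℝ ∞ f U)
    (j : Fin n) : ContDiffOn ℝ ∞ (db j f) U :=
  ((A1.contDiffOn_apply hU hf _).add (contDiffOn_const.mul (A1.contDiffOn_apply hU hf _))).div_const 2

theorem contDiff_dz {f : E n → ℂ} (hf : ContDiff ℝ ∞ f) (j : Fin n) : ContDiff ℝ ∞ (dz j f) :=
  contDiffOn_univ.1 (contDiffOn_dz isOpen_univ (contDiffOn_univ.2 hf) j)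

theorem contDiff_db {f : E n → ℂ} (hf : ContDiff ℝ ∞ f) (j : Fin n) : ContDiff ℝ ∞ (db j f) :=
  contDiffOn_univ.1 (contDiffOn_db isOpen_univ (contDiffOn_univ.2 hf) j)

theorem tsupport_dz_subset (f : E n → ℂ) (j : Fin n) : tsupport (dz j f) ⊆ tsupport f := by
  apply closure_minimal _ (isClosed_tsupport f)
  intro y hy
  by_contra h
  have h1 := notMem_tsupport_iff_eventuallyEq.1 h
  apply hy
  rw [dz_congr h1 j]
  exact dz_const 0 j y

theorem tsupport_db_subset (f : E n → ℂ) (j : Fin n) : tsupport (db j f) ⊆ tsupport f := by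
  apply closure_minimal _ (isClosed_tsupport f)
  intro y hy
  by_contra h
  have h1 := notMem_tsupport_iff_eventuallyEq.1 h
  apply hy
  rw [db_congr h1 j]
  exact db_const 0 j y

end Pool.Agent.helper63.NU
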