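import Pool.Agent.helper41.NU.A1

set_option autoImplicit false
set_option linter.all false

/-! Module A2: second order Wirtinger calculus, complex Hessians (helper41). -/

open MeasureTheory Filter Topology Set
open scoped ContDiff Manifold Matrix ENNReal ComplexOrder

noncomputable section

namespace Pool.Agent.helper63.NU

variable {n : ℕ}

namespace A2

open A1

theorem diff_fderiv {f : E n → ℂ} {y : E n} (hf : ContDiffAt ℝ 2 f y) :
    DifferentiableAt ℝ (fderiv ℝ f) y := by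
  have h : ContDiffAt ℝ 1 (fderiv ℝ f) y := hf.fderiv_right (by norm_num)
  exact h.differentiableAt (by norm_num)

theorem fderiv_apply {f : E n → ℂ} {y : E n} (hf : ContDiffAt ℝ 2 f y) (w v : E n) :
    fderiv ℝ (fun z => fderiv ℝ f z w) y v = fderiv ℝ (fderiv ℝ f) y v w := by
  have h := (diff_fderiv hf).hasFDerivAt.clm_apply (hasFDerivAt_const w y)
  rw [h.fderiv]
  simp

theorem diff_apply {f : E n → ℂ} {y : E n} (hf : ContDiffAt ℝ 2 f y) (w : E n) :
    DifferentiableAt ℝ (fun z => fderiv ℝ f z w) y :=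
  (diff_fderiv hf).clm_apply (differentiableAt_const w)

theorem diff_dz {f : E n → ℂ} {y : E n} (hf : ContDiffAt ℝ 2 f y) (j : Fin n) :
    DifferentiableAt ℝ (dz j f) y :=
  (((diff_apply hf (Pi.single j 1)).hasFDerivAt.sub
    ((diff_apply hf (Pi.single j Complex.I)).hasFDerivAt.const_mul Complex.I)).mul_const
      (2⁻¹ : ℂ)).differentiableAt

theorem diff_db {f : E n → ℂ} {y : E n} (hf : ContDiffAt ℝ 2 f y) (j : Fin n) :
    DifferentiableAt ℝ (db j f) y :=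
  (((diff_apply hf (Pi.single j 1)).hasFDerivAt.add
    ((diff_apply hf (Pi.single j Complex.I)).hasFDerivAt.const_mul Complex.I)).mul_const
      (2⁻¹ : ℂ)).differentiableAt

theorem fderiv_dz {f : E n → ℂ} {y : E n} (hf : ContDiffAt ℝ 2 f y) (j : Fin n) (v : E n) :
    fderiv ℝ (dz j f) y v = dzL (fderiv ℝ (fderiv ℝ f) y v) j := by
  have h1 := (diff_apply hf (Pi.single j 1)).hasFDerivAt
  have h2 := (diff_apply hf (Pi.single j Complex.I)).hasFDerivAt
  have h3 := (h1.sub (h2.const_mul Complex.I)).mul_const (2⁻¹ : ℂ)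
  have h4 : HasFDerivAt (dz j f) _ y := h3
  rw [h4.fderiv]
  simp only [ContinuousLinearMap.smul_apply, ContinuousLinearMap.sub_apply, smul_eq_mul,
    fderiv_apply hf]
  unfold dzL
  ring

theorem fderiv_db {f : E n → ℂ} {y : E n} (hf : ContDiffAt ℝ 2 f y) (j : Fin n) (v : E n) :
    fderiv ℝ (db j f) y v = dbL (fderiv ℝ (fderiv ℝ f) y v) j := by
  have h1 := (diff_apply hf (Pi.single j 1)).hasFDerivAt
  have h2 := (diff_apply hf (Pi.single j Complex.I)).hasFDerivAt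
  have h3 := (h1.add (h2.const_mul Complex.I)).mul_const (2⁻¹ : ℂ)
  have h4 : HasFDerivAt (db j f) _ y := h3
  rw [h4.fderiv]
  simp only [ContinuousLinearMap.smul_apply, ContinuousLinearMap.add_apply, smul_eq_mul,
    fderiv_apply hf]
  unfold dbL
  ring

theorem symm2 {f : E n → ℂ} {y : E n} (hf : ContDiffAt ℝ 2 f y) (v w : E n) :
    fderiv ℝ (fderiv ℝ f) y v w = fderiv ℝ (fderiv ℝ f) y w v :=
  (hf.isSymmSndFDerivAt (by simp)).eq v w

theorem ofReal2 {ψ : E n → ℝ} {y : E n} (hψ : ContDiffAt ℝ 2 ψ y) :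
    ContDiffAt ℝ 2 (fun z => ((ψ z : ℝ) : ℂ)) y :=
  Complex.ofRealCLM.contDiff.contDiffAt.comp y hψ

theorem ofRealOn {U : Set (E n)} {ψ : E n → ℝ} (hψ : ContDiffOn ℝ ∞ ψ U) :
    ContDiffOn ℝ ∞ (fun z => ((ψ z : ℝ) : ℂ)) U :=
  Complex.ofRealCLM.contDiff.comp_contDiffOn hψ

theorem ev2 {f : E n → ℂ} {y : E n} (hf : ContDiffAt ℝ 2 f y) :
    ∀ᶠ z in 𝓝 y, ContDiffAt ℝ 2 f z := hf.eventually (by simp)

theorem evD {f : E n → ℂ} {y : E n} (hf : ContDiffAt ℝ 2 f y) :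
    ∀ᶠ z in 𝓝 y, DifferentiableAt ℝ f z :=
  (ev2 hf).mono fun z hz => hz.differentiableAt (by norm_num)

theorem two_of_open {U : Set (E n)} (hU : IsOpen U) {f : E n → ℂ} (hf : ContDiffOn ℝ ∞ f U)
    {y : E n} (hy : y ∈ U) : ContDiffAt ℝ 2 f y :=
  contDiffAt_infty.1 (hf.contDiffAt (hU.mem_nhds hy)) 2

end A2

open A1 A2

theorem dz_db_comm {f : E n → ℂ} {y : E n} (hf : ContDiffAt ℝ 2 f y) (j k : Fin n) :
    dz j (db k f) y = db k (dz j f) y := by
  rw [dz, db, fderiv_db hf, fderiv_db hf, fderiv_dz hf, fderiv_dz hf]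
  unfold dbL dzL
  rw [symm2 hf (Pi.single k 1) (Pi.single j 1), symm2 hf (Pi.single k 1) (Pi.single j Complex.I),
    symm2 hf (Pi.single k Complex.I) (Pi.single j 1),
    symm2 hf (Pi.single k Complex.I) (Pi.single j Complex.I)]
  ring

theorem db_db_comm {f : E n → ℂ} {y : E n} (hf : ContDiffAt ℝ 2 f y) (j k : Fin n) :
    db j (db k f) y = db k (db j f) y := by
  rw [db, db, fderiv_db hf, fderiv_db hf, fderiv_db hf, fderiv_db hf]
  unfold dbL
  rw [symm2 hf (Pi.single k 1) (Pi.single j 1), symm2 hf (Pi.single k 1) (Pi.single j Complex.I),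
    symm2 hf (Pi.single k Complex.I) (Pi.single j 1),
    symm2 hf (Pi.single k Complex.I) (Pi.single j Complex.I)]
  ring

theorem dz_dz_comm {f : E n → ℂ} {y : E n} (hf : ContDiffAt ℝ 2 f y) (j k : Fin n) :
    dz j (dz k f) y = dz k (dz j f) y := by
  rw [dz, dz, fderiv_dz hf, fderiv_dz hf, fderiv_dz hf, fderiv_dz hf]
  unfold dzL
  rw [symm2 hf (Pi.single k 1) (Pi.single j 1), symm2 hf (Pi.single k 1) (Pi.single j Complex.I),
    symm2 hf (Pi.single k Complex.I) (Pi.single j 1),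
    symm2 hf (Pi.single k Complex.I) (Pi.single j Complex.I)]
  ring

theorem A2.dz_real (ψ : E n → ℝ) (y : E n) (j : Fin n) :
    (starRingEnd ℂ) (db j (fun z => ((ψ z : ℝ) : ℂ)) y) = dz j (fun z => ((ψ z : ℝ) : ℂ)) y := by
  rw [← dz_conj]
  congr 1
  funext z
  exact Complex.conj_ofReal _

theorem lev_herm {ψ : E n → ℝ} {y : E n} (hψ : ContDiffAt ℝ 2 ψ y) : (lev ψ y).IsHermitian := by
  ext j k
  rw [Matrix.conjTranspose_apply]
  show (starRingEnd ℂ) (dz k (db j (fun z => ((ψ z : ℝ) : ℂ))) y) = _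
  rw [← db_conj]
  have e : (fun z => (starRingEnd ℂ) (db j (fun z => ((ψ z : ℝ) : ℂ)) z)) =
      dz j (fun z => ((ψ z : ℝ) : ℂ)) := by
    funext z
    exact A2.dz_real ψ z j
  rw [e, ← dz_db_comm (ofReal2 hψ)]
  rfl

theorem lev_congr {ψ ψ' : E n → ℝ} {y : E n} (h : ψ =ᶠ[𝓝 y] ψ') : lev ψ y = lev ψ' y := by
  ext j k
  show dz j (db k (fun z => ((ψ z : ℝ) : ℂ))) y = dz j (db k (fun z => ((ψ' z : ℝ) : ℂ))) y
  apply dz_congr
  filter_upwards [h.eventuallyEq_nhds] with z hz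
  apply db_congr
  filter_upwards [hz] with w hw
  rw [hw]

theorem lev_add {ψ ψ' : E n → ℝ} {y : E n} (hψ : ContDiffAt ℝ 2 ψ y) (hψ' : ContDiffAt ℝ 2 ψ' y) :
    lev (fun z => ψ z + ψ' z) y = lev ψ y + lev ψ' y := by
  ext j k
  show dz j (db k (fun z => ((ψ z + ψ' z : ℝ) : ℂ))) y =
    dz j (db k (fun z => ((ψ z : ℝ) : ℂ))) y + dz j (db k (fun z => ((ψ' z : ℝ) : ℂ))) y
  rw [← dz_add (diff_db (ofReal2 hψ) k) (diff_db (ofReal2 hψ') k)]
  apply dz_congr
  filter_upwards [evD (ofReal2 hψ), evD (ofReal2 hψ')] with z h1 h2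
  rw [← db_add h1 h2]
  congr 1
  funext w
  push_cast
  rfl

theorem lev_sub {ψ ψ' : E n → ℝ} {y : E n} (hψ : ContDiffAt ℝ 2 ψ y) (hψ' : ContDiffAt ℝ 2 ψ' y) :
    lev (fun z => ψ z - ψ' z) y = lev ψ y - lev ψ' y := by
  ext j k
  show dz j (db k (fun z => ((ψ z - ψ' z : ℝ) : ℂ))) y =
    dz j (db k (fun z => ((ψ z : ℝ) : ℂ))) y - dz j (db k (fun z => ((ψ' z : ℝ) : ℂ))) y
  rw [← dz_sub (diff_db (ofReal2 hψ) k) (diff_db (ofReal2 hψ') k)]
  apply dz_congr
  filter_upwards [evD (ofReal2 hψ), evD (ofReal2 hψ')] with z h1 h2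
  rw [← db_sub h1 h2]
  congr 1
  funext w
  push_cast
  rfl

theorem lev_const_mul (c : ℝ) {ψ : E n → ℝ} {y : E n} (hψ : ContDiffAt ℝ 2 ψ y) :
    lev (fun z => c * ψ z) y = (c : ℂ) • lev ψ y := by
  ext j k
  show dz j (db k (fun z => ((c * ψ z : ℝ) : ℂ))) y =
    (c : ℂ) * dz j (db k (fun z => ((ψ z : ℝ) : ℂ))) y
  rw [← dz_const_mul]
  congr 1
  funext z
  rw [← db_const_mul]
  congr 1
  funext w
  push_cast
  rfl

theorem A2.hol_entry {τ : E n → E n} {y : E n} (hτ : AnalyticAt ℂ τ y) (v : E n) (l : Fin n) :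
    DifferentiableAt ℂ (fun z => fderiv ℂ τ z v l) y := by
  have h1 : DifferentiableAt ℂ (fun z => fderiv ℂ τ z v) y :=
    hτ.fderiv.differentiableAt.clm_apply (differentiableAt_const v)
  exact (differentiableAt_pi.1 h1) l

/-- `Dᵀ · lev ψ (τ y) · conj D` with `D = (∂τ_i/∂z_j)` -/
theorem lev_comp {τ : E n → E n} {ψ : E n → ℝ} {y : E n} (hτ : AnalyticAt ℂ τ y)
    (hψ : ContDiffAt ℝ 2 ψ (τ y)) (j k : Fin n) :
    lev (fun z => ψ (τ z)) y j k = ∑ i, ∑ l, fderiv ℂ τ y (Pi.single j 1) i * lev ψ (τ y) i l *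
      (starRingEnd ℂ) (fderiv ℂ τ y (Pi.single k 1) l) := by
  show dz j (db k (fun z => ((ψ (τ z) : ℝ) : ℂ))) y = _
  have hΨ := ofReal2 hψ
  have hev : (db k (fun z => ((ψ (τ z) : ℝ) : ℂ))) =ᶠ[𝓝 y] fun z =>
      ∑ l, db l (fun w => ((ψ w : ℝ) : ℂ)) (τ z) *
        (starRingEnd ℂ) (fderiv ℂ τ z (Pi.single k 1) l) := by
    filter_upwards [hτ.eventually_analyticAt, hτ.continuousAt.eventually (evD hΨ)] with z h1 h2
    exact db_comp (f := fun w => ((ψ w : ℝ) : ℂ)) h1.differentiableAt h2 k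
  have hent : ∀ l, DifferentiableAt ℂ (fun z => fderiv ℂ τ z (Pi.single k 1) l) y :=
    fun l => A2.hol_entry hτ _ l
  have hentR : ∀ l, DifferentiableAt ℝ
      (fun z => (starRingEnd ℂ) (fderiv ℂ τ z (Pi.single k 1) l)) y := fun l =>
    Complex.conjCLE.differentiableAt.comp y ((hent l).restrictScalars ℝ)
  have hcmp : ∀ l, DifferentiableAt ℝ (fun z => db l (fun w => ((ψ w : ℝ) : ℂ)) (τ z)) y := fun l =>
    (diff_db hΨ l).comp y (hτ.differentiableAt.restrictScalars ℝ)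
  rw [dz_congr hev, dz_sum (f := fun l z => db l (fun w => ((ψ w : ℝ) : ℂ)) (τ z) *
        (starRingEnd ℂ) (fderiv ℂ τ z (Pi.single k 1) l)) Finset.univ
        (fun l _ => (hcmp l).mul (hentR l)), Finset.sum_comm]
  refine Finset.sum_congr rfl (fun l _ => ?_)
  rw [dz_mul (hcmp l) (hentR l), dz_conj, db_hol (hent l), map_zero, mul_zero, add_zero,
    dz_comp (f := db l (fun w => ((ψ w : ℝ) : ℂ))) hτ.differentiableAt (diff_db hΨ l),
    Finset.sum_mul]
  refine Finset.sum_congr rfl (fun i _ => ?_)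
  show _ = fderiv ℂ τ y (Pi.single j 1) i * dz i (db l (fun w => ((ψ w : ℝ) : ℂ))) (τ y) *
      (starRingEnd ℂ) (fderiv ℂ τ y (Pi.single k 1) l)
  ring

theorem lev_re_hol {g : E n → ℂ} {y : E n} (hg : AnalyticAt ℂ g y) :
    lev (fun z => (g z).re) y = 0 := by
  ext j k
  show dz j (db k (fun z => (((g z).re : ℝ) : ℂ))) y = 0
  have hev : (db k (fun z => (((g z).re : ℝ) : ℂ))) =ᶠ[𝓝 y] fun z =>
      (1 / 2 : ℂ) * (starRingEnd ℂ) (fderiv ℂ g z (Pi.single k 1)) := by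
    filter_upwards [hg.eventually_analyticAt] with z hz
    have e : (fun z => (((g z).re : ℝ) : ℂ)) =
        fun z => (1 / 2 : ℂ) * (g z + (starRingEnd ℂ) (g z)) := by
      funext w
      rw [Complex.add_conj]
      push_cast
      ring
    have hR : DifferentiableAt ℝ g z := hz.differentiableAt.restrictScalars ℝ
    have hC : DifferentiableAt ℝ (fun z => (starRingEnd ℂ) (g z)) z :=
      Complex.conjCLE.differentiableAt.comp z hR
    rw [e, db_const_mul, db_add hR hC, db_hol hz.differentiableAt, db_conj,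
      dz_hol hz.differentiableAt, zero_add]
  have hD : DifferentiableAt ℂ (fun z => fderiv ℂ g z (Pi.single k 1)) y :=
    hg.fderiv.differentiableAt.clm_apply (differentiableAt_const _)
  rw [dz_congr hev, dz_const_mul, dz_conj, db_hol hD, map_zero, mul_zero]

theorem lev_log_normSq {J : E n → ℂ} {y : E n} (hJ : AnalyticAt ℂ J y) (h0 : J y ≠ 0) :
    lev (fun z => Real.log (‖J z‖ ^ 2)) y = 0 := by
  set c : ℂ := (starRingEnd ℂ) (J y) with hc
  have hc0 : c ≠ 0 := by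
    rw [hc]; simpa using h0
  have hs : c * J y ∈ Complex.slitPlane := by
    rw [hc, mul_comm, Complex.mul_conj]
    exact Complex.ofReal_mem_slitPlane.2 (Complex.normSq_pos.2 h0)
  have hG : AnalyticAt ℂ (fun z => 2 * Complex.log (c * J z) - ((2 * Real.log ‖c‖ : ℝ) : ℂ)) y := by
    refine AnalyticAt.sub (analyticAt_const.mul ?_) analyticAt_const
    exact (analyticAt_const.mul hJ).clog hs
  have hev : (fun z => Real.log (‖J z‖ ^ 2)) =ᶠ[𝓝 y]
      fun z => (2 * Complex.log (c * J z) - ((2 * Real.log ‖c‖ : ℝ) : ℂ)).re := by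
    filter_upwards [hJ.continuousAt.eventually_ne h0] with z hz
    rw [Complex.sub_re, Complex.ofReal_re, Real.log_pow]
    have e : ((2 : ℂ) * Complex.log (c * J z)).re = 2 * Real.log ‖c * J z‖ := by
      rw [show (2 : ℂ) = ((2 : ℝ) : ℂ) by norm_num, Complex.re_ofReal_mul, Complex.log_re]
    rw [e, norm_mul, Real.log_mul (norm_ne_zero_iff.2 hc0) (norm_ne_zero_iff.2 hz)]
    push_cast
    ring
  rw [lev_congr hev]
  exact lev_re_hol hG

theorem contDiffOn_lev {U : Set (E n)} (hU : IsOpen U) {ψ : E n → ℝ} (hψ : ContDiffOn ℝ ∞ ψ U)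
    (j k : Fin n) : ContDiffOn ℝ ∞ (fun y => lev ψ y j k) U :=
  contDiffOn_dz hU (contDiffOn_db hU (ofRealOn hψ) k) j

/-- third derivatives of a potential are symmetric -/
theorem db_lev_symm {U : Set (E n)} (hU : IsOpen U) {ψ : E n → ℝ} (hψ : ContDiffOn ℝ ∞ ψ U)
    {y : E n} (hy : y ∈ U) (j k l : Fin n) :
    db l (fun z => lev ψ z j k) y = db k (fun z => lev ψ z j l) y := by
  have hΨ := ofRealOn hψ
  have h : ∀ m, (fun z => lev ψ z j m) =ᶠ[𝓝 y] db m (dz j (fun z => ((ψ z : ℝ) : ℂ))) := by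
    intro m
    filter_upwards [hU.mem_nhds hy] with z hz
    exact dz_db_comm (two_of_open hU hΨ hz) j m
  rw [db_congr (h k), db_congr (h l)]
  exact db_db_comm (two_of_open hU (contDiffOn_dz hU hΨ j) hy) l k

theorem dz_lev_symm {U : Set (E n)} (hU : IsOpen U) {ψ : E n → ℝ} (hψ : ContDiffOn ℝ ∞ ψ U)
    {y : E n} (hy : y ∈ U) (j k l : Fin n) :
    dz l (fun z => lev ψ z j k) y = dz j (fun z => lev ψ z l k) y :=
  dz_dz_comm (f := db k (fun z => ((ψ z : ℝ) : ℂ)))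
    (two_of_open hU (contDiffOn_db hU (ofRealOn hψ) k) hy) l j

theorem A2.contDiffOn_det {U : Set (E n)} {A : E n → Matrix (Fin n) (Fin n) ℂ}
    (hA : ∀ i j, ContDiffOn ℝ ∞ (fun y => A y i j) U) : ContDiffOn ℝ ∞ (fun y => (A y).det) U := by
  simp only [Matrix.det_apply']
  refine ContDiffOn.sum (fun σ _ => contDiffOn_const.mul ?_)
  exact contDiffOn_prod (fun i _ => hA _ _)

theorem A2.contDiffOn_inv {U : Set (E n)} {A : E n → Matrix (Fin n) (Fin n) ℂ}
    (hA : ∀ i j, ContDiffOn ℝ ∞ (fun y => A y i j) U) (h0 : ∀ y ∈ U, (A y).det ≠ 0)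
    (j k : Fin n) : ContDiffOn ℝ ∞ (fun y => (A y)⁻¹ j k) U := by
  have e : (fun y => (A y)⁻¹ j k) = fun y => ((A y).det)⁻¹ * (A y).adjugate j k := by
    funext y
    rw [Matrix.inv_def, Matrix.smul_apply, smul_eq_mul, Ring.inverse_eq_inv']
  rw [e]
  refine ((A2.contDiffOn_det hA).inv h0).mul ?_
  have e2 : (fun y => (A y).adjugate j k) =
      fun y => ((A y).updateRow k (Pi.single j 1)).det := by
    funext y
    rw [Matrix.adjugate_apply]
  rw [e2]
  apply A2.contDiffOn_det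
  intro a b
  by_cases h : a = k
  · subst h
    simp only [Matrix.updateRow_self]
    exact contDiffOn_const
  · simp only [Matrix.updateRow_ne h]
    exact hA a b

theorem contDiffOn_lev_inv {U : Set (E n)} (hU : IsOpen U) {ψ : E n → ℝ} (hψ : ContDiffOn ℝ ∞ ψ U)
    (hp : ∀ y ∈ U, (lev ψ y).PosDef) (j k : Fin n) :
    ContDiffOn ℝ ∞ (fun y => (lev ψ y)⁻¹ j k) U :=
  A2.contDiffOn_inv (fun a b => contDiffOn_lev hU hψ a b) (fun y hy => (hp y hy).det_pos.ne') j k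

theorem contDiffOn_rs {U : Set (E n)} (hU : IsOpen U) {ψ : E n → ℝ} (hψ : ContDiffOn ℝ ∞ ψ U)
    (hp : ∀ y ∈ U, (lev ψ y).PosDef) {f : E n → ℂ} (hf : ContDiffOn ℝ ∞ f U) (j : Fin n) :
    ContDiffOn ℝ ∞ (fun y => rs (lev ψ y) (dbv f y) j) U :=
  ContDiffOn.sum (fun k _ => (contDiffOn_lev_inv hU hψ hp k j).mul (contDiffOn_db hU hf k))

theorem contDiffOn_bx {U : Set (E n)} (hU : IsOpen U) {ψ : E n → ℝ} (hψ : ContDiffOn ℝ ∞ ψ U)
    (hp : ∀ y ∈ U, (lev ψ y).PosDef) {f : E n → ℂ} (hf : ContDiffOn ℝ ∞ f U) :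
    ContDiffOn ℝ ∞ (bx ψ f) U := by
  have h1 : ContDiffOn ℝ ∞ (fun z => (Real.exp (ψ z) : ℂ)) U := by
    have := ofRealOn (Real.contDiff_exp.comp_contDiffOn hψ)
    exact this
  have h2 : ContDiffOn ℝ ∞ (fun z => (Real.exp (-ψ z) : ℂ)) U := by
    have := ofRealOn (Real.contDiff_exp.comp_contDiffOn hψ.neg)
    exact this
  refine h1.neg.mul (ContDiffOn.sum (fun j _ => ?_))
  exact contDiffOn_dz hU (h2.mul (contDiffOn_rs hU hψ hp hf j)) j

end Pool.Agent.helper63.NU
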