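import Pool.Agent.helper69.NU.A9

set_option autoImplicit false
set_option linter.all false

/-! Module B2c: identity theorem for sections, holomorphic functions are constant (helper41). -/

open MeasureTheory Filter Topology Set
open scoped ContDiff Manifold Matrix ENNReal ComplexOrder

noncomputable section

namespace Pool.Agent.helper63.NU

variable {n : ℕ} {M : Type*} [TopologicalSpace M] [ChartedSpace (E n) M]
  [IsManifold 𝓘(ℂ, E n) ω M]

namespace B2c

omit [IsManifold 𝓘(ℂ, E n) ω M] in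
theorem ev_change {k : ℕ} {s : Fam n M ℂ} (hs : IsHol k s) {e e' : Ch n M}
    (he : e ∈ atlas (E n) M) (he' : e' ∈ atlas (E n) M) {x : M} (hx : x ∈ e.source)
    (hx' : x ∈ e'.source) (h : ∀ᶠ y in 𝓝 (e x), s e y = 0) :
    ∀ᶠ y in 𝓝 (e' x), s e' y = 0 := by
  have h1 : ∀ᶠ z in 𝓝 x, s e (e z) = 0 := (e.continuousAt hx).eventually h
  have h2 : ∀ᶠ z in 𝓝 x, s e' (e' z) = 0 := by
    filter_upwards [h1, e.open_source.mem_nhds hx, e'.open_source.mem_nhds hx'] with z a b c
    rw [hs.trans e he e' he' z ⟨b, c⟩, a, mul_zero]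
  have hy : e' x ∈ e'.target := e'.map_source hx'
  have h3 : Tendsto e'.symm (𝓝 (e' x)) (𝓝 x) := by
    have := e'.continuousAt_symm hy
    rw [ContinuousAt, e'.left_inv hx'] at this
    exact this
  filter_upwards [h3.eventually h2, e'.open_target.mem_nhds hy] with y a b
  rwa [e'.right_inv b] at a

/-- the set of points near which `s` vanishes -/
def Z (s : Fam n M ℂ) : Set M := {x | ∃ e ∈ atlas (E n) M, x ∈ e.source ∧ ∀ᶠ y in 𝓝 (e x), s e y = 0}

omit [IsManifold 𝓘(ℂ, E n) ω M] in
theorem isOpen_Z (s : Fam n M ℂ) : IsOpen (Z s) := by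
  rw [isOpen_iff_mem_nhds]
  rintro x ⟨e, he, hx, h⟩
  have h1 := (e.continuousAt hx).eventually h.eventually_nhds
  filter_upwards [h1, e.open_source.mem_nhds hx] with z a b
  exact ⟨e, he, b, a⟩

omit [IsManifold 𝓘(ℂ, E n) ω M] in
theorem isClosed_Z {k : ℕ} {s : Fam n M ℂ} (hs : IsHol k s) : IsClosed (Z s) := by
  apply isClosed_of_closure_subset
  intro x hx
  set e := chartAt (E n) x with he
  have hea : e ∈ atlas (E n) M := chart_mem_atlas (E n) x
  have hxs : x ∈ e.source := mem_chart_source (E n) x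
  obtain ⟨r, hr, hball⟩ := Metric.isOpen_iff.1 e.open_target (e x) (e.map_source hxs)
  have hN : e.source ∩ e ⁻¹' Metric.ball (e x) r ∈ 𝓝 x :=
    inter_mem (e.open_source.mem_nhds hxs)
      ((e.continuousAt hxs).preimage_mem_nhds (Metric.ball_mem_nhds _ hr))
  obtain ⟨z, hz1, hz2⟩ := mem_closure_iff_nhds.1 hx _ hN
  obtain ⟨e', he', hze', hze⟩ := hz2
  have h1 : ∀ᶠ y in 𝓝 (e z), s e y = 0 := ev_change hs he' hea hze' hz1.1 hze
  have hA : AnalyticOnNhd ℂ (s e) (Metric.ball (e x) r) :=
    osgood Metric.isOpen_ball ((hs.hol e hea).mono hball)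
  have h2 := hA.eqOn_zero_of_preconnected_of_eventuallyEq_zero
    (convex_ball (e x) r).isPreconnected hz1.2 h1
  refine ⟨e, hea, hxs, ?_⟩
  filter_upwards [Metric.ball_mem_nhds (e x) hr] with y hy
  exact h2 hy

end B2c

open B2c

/-- identity theorem -/
theorem IsHol.eq_zero [ConnectedSpace M] {k : ℕ} {s : Fam n M ℂ} (hs : IsHol k s)
    {e₀ : Ch n M} (he₀ : e₀ ∈ atlas (E n) M) {V : Set (E n)} (hV : IsOpen V) (hne : V.Nonempty)
    (hVe : V ⊆ e₀.target) (h0 : ∀ y ∈ V, s e₀ y = 0) :
    ∀ e ∈ atlas (E n) M, ∀ y ∈ e.target, s e y = 0 := by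
  have hne' : (Z s).Nonempty := by
    obtain ⟨y, hy⟩ := hne
    refine ⟨e₀.symm y, e₀, he₀, e₀.map_target (hVe hy), ?_⟩
    rw [e₀.right_inv (hVe hy)]
    filter_upwards [hV.mem_nhds hy] with z hz
    exact h0 z hz
  have huniv : Z s = univ := IsClopen.eq_univ ⟨isClosed_Z hs, isOpen_Z s⟩ hne'
  intro e he y hy
  have h1 : e.symm y ∈ Z s := by rw [huniv]; trivial
  obtain ⟨e', he', hx', h2⟩ := h1
  have h3 := ev_change hs he' he hx' (e.map_target hy) h2
  rw [e.right_inv hy] at h3
  exact h3.self_of_nhds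

/-- holomorphic functions are constant -/
theorem IsHol.const [CompactSpace M] [ConnectedSpace M] {s : Fam n M ℂ} (hs : IsHol 0 s) :
    ∃ c : ℂ, ∀ e ∈ atlas (E n) M, ∀ y ∈ e.target, s e y = c := by
  set f : M → ℂ := fun x => s (chartAt (E n) x) (chartAt (E n) x x) with hf
  have hfe : ∀ e ∈ atlas (E n) M, ∀ x ∈ e.source, f x = s e (e x) := by
    intro e he x hx
    have := hs.trans e he (chartAt (E n) x) (chart_mem_atlas (E n) x) x
      ⟨hx, mem_chart_source (E n) x⟩
    rw [pow_zero, one_mul] at this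
    exact this
  have hcont : Continuous f := by
    rw [continuous_iff_continuousAt]
    intro x
    set e := chartAt (E n) x with he
    have hea : e ∈ atlas (E n) M := chart_mem_atlas (E n) x
    have hxs : x ∈ e.source := mem_chart_source (E n) x
    have h1 : ContinuousAt (s e) (e x) :=
      ((hs.hol e hea).differentiableAt (e.open_target.mem_nhds (e.map_source hxs))).continuousAt
    have h2 : ContinuousAt (fun z => s e (e z)) x := ContinuousAt.comp (f := e) h1 (e.continuousAt hxs)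
    refine h2.congr ?_
    filter_upwards [e.open_source.mem_nhds hxs] with z hz
    exact (hfe e hea z hz).symm
  obtain ⟨x₀, -, hmax⟩ := isCompact_univ.exists_isMaxOn (univ_nonempty (α := M))
    (hcont.norm.continuousOn)
  set e₀ := chartAt (E n) x₀ with he₀
  have hea : e₀ ∈ atlas (E n) M := chart_mem_atlas (E n) x₀
  have hxs : x₀ ∈ e₀.source := mem_chart_source (E n) x₀
  have hys : e₀ x₀ ∈ e₀.target := e₀.map_source hxs
  have hd : ∀ᶠ z in 𝓝 (e₀ x₀), DifferentiableAt ℂ (s e₀) z := by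
    filter_upwards [e₀.open_target.mem_nhds hys] with z hz
    exact (hs.hol e₀ hea).differentiableAt (e₀.open_target.mem_nhds hz)
  have hc : IsLocalMax (norm ∘ s e₀) (e₀ x₀) := by
    filter_upwards [e₀.open_target.mem_nhds hys] with z hz
    have h1 := hmax (mem_univ (e₀.symm z))
    simp only [mem_setOf_eq] at h1
    rw [hfe e₀ hea _ (e₀.map_target hz), hfe e₀ hea _ hxs, e₀.right_inv hz] at h1
    exact h1
  have hev := Complex.eventually_eq_of_isLocalMax_norm hd hc
  obtain ⟨V, hVs, hVo, hVm⟩ := mem_nhds_iff.1 (inter_mem hev (e₀.open_target.mem_nhds hys))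
  set c := s e₀ (e₀ x₀) with hcdef
  have ht : IsHol 0 (fun e y => s e y - c : Fam n M ℂ) := by
    refine ⟨⟨fun e he => (hs.smooth e he).sub contDiffOn_const, ?_⟩,
      fun e he => (hs.hol e he).sub (differentiableOn_const c)⟩
    intro e he e' he' x hx
    have := hs.trans e he e' he' x hx
    rw [pow_zero, one_mul] at this ⊢
    rw [this]
  have hz := ht.eq_zero hea hVo ⟨_, hVm⟩ (fun y hy => (hVs hy).2) (fun y hy => by
    have := (hVs hy).1
    simp only [mem_setOf_eq] at this
    rw [this, sub_self])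
  exact ⟨c, fun e he y hy => sub_eq_zero.1 (hz e he y hy)⟩

end Pool.Agent.helper63.NU
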