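import Pool.Agent.helper41.NU.A1

set_option autoImplicit false
set_option linter.all false

/-! Module A3: integration by parts for `dz`, `db` (helper41). -/

open MeasureTheory Filter Topology Set
open scoped ContDiff Manifold Matrix ENNReal ComplexOrder

noncomputable section

namespace Pool.Agent.helper63.NU

variable {n : ℕ}

/-- product of a function smooth on `U` and a test function of `U` -/
theorem contDiff_mul_test {U : Set (E n)} (hU : IsOpen U) {f u : E n → ℂ}
    (hf : ContDiffOn ℝ ∞ f U) (hu : ContDiff ℝ ∞ u) (hs : tsupport u ⊆ U) :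
    ContDiff ℝ ∞ (fun y => f y * u y) := by
  rw [contDiff_iff_contDiffAt]
  intro y
  by_cases hy : y ∈ U
  · exact (hf.contDiffAt (hU.mem_nhds hy)).mul hu.contDiffAt
  · have h1 : y ∉ tsupport u := fun h => hy (hs h)
    have h2 := notMem_tsupport_iff_eventuallyEq.1 h1
    have h3 : (fun y => f y * u y) =ᶠ[𝓝 y] fun _ => (0 : ℂ) := by
      filter_upwards [h2] with z hz
      rw [hz, Pi.zero_apply, mul_zero]
    exact contDiffAt_const.congr_of_eventuallyEq h3

namespace A3

theorem cpt_mul {f u : E n → ℂ} (hc : HasCompactSupport u) :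
    HasCompactSupport (fun y => f y * u y) := hc.mul_left

theorem cpt_apply {g : E n → ℂ} (hc : HasCompactSupport g) (v : E n) :
    HasCompactSupport (fun y => fderiv ℝ g y v) := by
  exact hc.fderiv_apply (𝕜 := ℝ) v

theorem int_of_smooth {g : E n → ℂ} (hg : ContDiff ℝ ∞ g) (hc : HasCompactSupport g) :
    Integrable g := hg.continuous.integrable_of_hasCompactSupport hc

theorem int_apply {g : E n → ℂ} (hg : ContDiff ℝ ∞ g) (hc : HasCompactSupport g) (v : E n) :
    Integrable (fun y => fderiv ℝ g y v) := by
  have h : Continuous (fun y => fderiv ℝ g y v) :=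
    (hg.continuous_fderiv (by simp)).clm_apply continuous_const
  exact h.integrable_of_hasCompactSupport (cpt_apply hc v)

theorem integral_apply_eq_zero {g : E n → ℂ} (hg : ContDiff ℝ ∞ g) (hc : HasCompactSupport g)
    (v : E n) : ∫ y, fderiv ℝ g y v = 0 := by
  have h := integral_mul_fderiv_eq_neg_fderiv_mul_of_integrable (μ := (volume : Measure (E n)))
    (f := fun _ : E n => (1 : ℂ)) (g := g) (v := v) (by simp) (by simpa using int_apply hg hc v)
    (by simpa using int_of_smooth hg hc) (fun x _ => differentiableAt_const _)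
    (fun x _ => hg.differentiable (by simp) x)
  simpa using h

end A3

open A3

theorem integral_dz_eq_zero {g : E n → ℂ} (hg : ContDiff ℝ ∞ g) (hc : HasCompactSupport g)
    (j : Fin n) : ∫ y, dz j g y = 0 := by
  unfold dz
  rw [integral_div, integral_sub (int_apply hg hc _) ((int_apply hg hc _).const_mul _),
    integral_const_mul, integral_apply_eq_zero hg hc, integral_apply_eq_zero hg hc]
  simp

theorem integral_db_eq_zero {g : E n → ℂ} (hg : ContDiff ℝ ∞ g) (hc : HasCompactSupport g)
    (j : Fin n) : ∫ y, db j g y = 0 := by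
  unfold db
  rw [integral_div, integral_add (int_apply hg hc _) ((int_apply hg hc _).const_mul _),
    integral_const_mul, integral_apply_eq_zero hg hc, integral_apply_eq_zero hg hc]
  simp

theorem A3.cpt_dz {g : E n → ℂ} (hc : HasCompactSupport g) (j : Fin n) :
    HasCompactSupport (dz j g) :=
  hc.of_isClosed_subset (isClosed_tsupport _) (tsupport_dz_subset g j)

theorem A3.cpt_db {g : E n → ℂ} (hc : HasCompactSupport g) (j : Fin n) :
    HasCompactSupport (db j g) :=
  hc.of_isClosed_subset (isClosed_tsupport _) (tsupport_db_subset g j)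

theorem integral_dz_mul {U : Set (E n)} (hU : IsOpen U) {f u : E n → ℂ}
    (hf : ContDiffOn ℝ ∞ f U) (hu : ContDiff ℝ ∞ u) (hc : HasCompactSupport u)
    (hs : tsupport u ⊆ U) (j : Fin n) : ∫ y, dz j f y * u y = -∫ y, f y * dz j u y := by
  have hF := contDiff_mul_test hU hf hu hs
  have h0 := integral_dz_eq_zero hF (cpt_mul hc) j
  have hI1 : Integrable (fun y => dz j f y * u y) :=
    int_of_smooth (contDiff_mul_test hU (contDiffOn_dz hU hf j) hu hs) (cpt_mul hc)
  have hI2 : Integrable (fun y => f y * dz j u y) :=
    int_of_smooth (contDiff_mul_test hU hf (contDiff_dz hu j)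
      ((tsupport_dz_subset u j).trans hs)) (cpt_mul (A3.cpt_dz hc j))
  have e : (fun y => dz j (fun y => f y * u y) y) = fun y => dz j f y * u y + f y * dz j u y := by
    funext y
    by_cases hy : y ∈ U
    · exact dz_mul ((hf.contDiffAt (hU.mem_nhds hy)).differentiableAt (by simp))
        (hu.differentiable (by simp) y) j
    · have h1 : y ∉ tsupport u := fun h => hy (hs h)
      have h2 := notMem_tsupport_iff_eventuallyEq.1 h1
      have h3 : (fun y => f y * u y) =ᶠ[𝓝 y] fun _ => (0 : ℂ) := by
        filter_upwards [h2] with z hz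
        rw [hz, Pi.zero_apply, mul_zero]
      have h4 : dz j u y = 0 := by
        rw [dz_congr h2 j]
        exact dz_const 0 j y
      have h5 : u y = 0 := h2.eq_of_nhds
      rw [dz_congr h3 j, dz_const, h4, h5, mul_zero, mul_zero, add_zero]
  rw [e, integral_add hI1 hI2] at h0
  exact eq_neg_of_add_eq_zero_left h0

theorem integral_db_mul {U : Set (E n)} (hU : IsOpen U) {f u : E n → ℂ}
    (hf : ContDiffOn ℝ ∞ f U) (hu : ContDiff ℝ ∞ u) (hc : HasCompactSupport u)
    (hs : tsupport u ⊆ U) (j : Fin n) : ∫ y, db j f y * u y = -∫ y, f y * db j u y := by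
  have hF := contDiff_mul_test hU hf hu hs
  have h0 := integral_db_eq_zero hF (cpt_mul hc) j
  have hI1 : Integrable (fun y => db j f y * u y) :=
    int_of_smooth (contDiff_mul_test hU (contDiffOn_db hU hf j) hu hs) (cpt_mul hc)
  have hI2 : Integrable (fun y => f y * db j u y) :=
    int_of_smooth (contDiff_mul_test hU hf (contDiff_db hu j)
      ((tsupport_db_subset u j).trans hs)) (cpt_mul (A3.cpt_db hc j))
  have e : (fun y => db j (fun y => f y * u y) y) = fun y => db j f y * u y + f y * db j u y := by
    funext y
    by_cases hy : y ∈ U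
    · exact db_mul ((hf.contDiffAt (hU.mem_nhds hy)).differentiableAt (by simp))
        (hu.differentiable (by simp) y) j
    · have h1 : y ∉ tsupport u := fun h => hy (hs h)
      have h2 := notMem_tsupport_iff_eventuallyEq.1 h1
      have h3 : (fun y => f y * u y) =ᶠ[𝓝 y] fun _ => (0 : ℂ) := by
        filter_upwards [h2] with z hz
        rw [hz, Pi.zero_apply, mul_zero]
      have h4 : db j u y = 0 := by
        rw [db_congr h2 j]
        exact db_const 0 j y
      have h5 : u y = 0 := h2.eq_of_nhds
      rw [db_congr h3 j, db_const, h4, h5, mul_zero, mul_zero, add_zero]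
  rw [e, integral_add hI1 hI2] at h0
  exact eq_neg_of_add_eq_zero_left h0

end Pool.Agent.helper63.NU
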