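import Pool.Agent.helper41.NU.A2
import Pool.Agent.helper70.NU.A7
import Pool.Agent.helper69.NU.B2
import Pool.Agent.helper95.NU.B4b
import Pool.Agent.helper2.NU.B5
import Pool.Agent.helper46.NU.B5b
import Pool.Agent.helper74.NU.B6
import Pool.Agent.helper40.NU.B7a

set_option autoImplicit false
set_option linter.all false

/-! Module B7b: Hormander (assembly) (helper41). -/

open MeasureTheory Filter Topology Set
open scoped ContDiff Manifold Matrix ENNReal ComplexOrder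

noncomputable section

namespace Pool.Agent.helper63.NU

namespace B7b

section loc
variable {n : ℕ}

theorem rs_add (Θ : Matrix (Fin n) (Fin n) ℂ) (α β : Fin n → ℂ) (j : Fin n) :
    rs Θ (α + β) j = rs Θ α j + rs Θ β j := by
  unfold rs
  rw [← Finset.sum_add_distrib]
  exact Finset.sum_congr rfl (fun k _ => by rw [Pi.add_apply]; ring)

theorem rs_smul (Θ : Matrix (Fin n) (Fin n) ℂ) (c : ℂ) (α : Fin n → ℂ) (j : Fin n) :
    rs Θ (c • α) j = c * rs Θ α j := by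
  unfold rs
  rw [Finset.mul_sum]
  exact Finset.sum_congr rfl (fun k _ => by rw [Pi.smul_apply, smul_eq_mul]; ring)

theorem expneg {U : Set (E n)} {ψ : E n → ℝ} (hψ : ContDiffOn ℝ ∞ ψ U) :
    ContDiffOn ℝ ∞ (fun z => (Real.exp (-ψ z) : ℂ)) U := by
  have := A2.ofRealOn (Real.contDiff_exp.comp_contDiffOn hψ.neg)
  exact this

theorem bx_add {U : Set (E n)} (hU : IsOpen U) {ψ : E n → ℝ} (hψ : ContDiffOn ℝ ∞ ψ U)
    (hp : ∀ y ∈ U, (lev ψ y).PosDef) {f g : E n → ℂ} (hf : ContDiffOn ℝ ∞ f U)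
    (hg : ContDiffOn ℝ ∞ g U) {y : E n} (hy : y ∈ U) :
    bx ψ (f + g) y = bx ψ f y + bx ψ g y := by
  have hd : ∀ (h : E n → ℂ), ContDiffOn ℝ ∞ h U → ∀ z ∈ U, DifferentiableAt ℝ h z :=
    fun h hh z hz => (hh.contDiffAt (hU.mem_nhds hz)).differentiableAt (by simp)
  unfold bx
  rw [← mul_add, ← Finset.sum_add_distrib]
  congr 1
  refine Finset.sum_congr rfl (fun j _ => ?_)
  rw [← dz_add (hd _ ((expneg hψ).mul (contDiffOn_rs hU hψ hp hf j)) y hy)
    (hd _ ((expneg hψ).mul (contDiffOn_rs hU hψ hp hg j)) y hy)]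
  apply dz_congr
  filter_upwards [hU.mem_nhds hy] with z hz
  have e : dbv (f + g) z = dbv f z + dbv g z := by
    funext k
    exact db_add (hd f hf z hz) (hd g hg z hz) k
  rw [e, rs_add]
  show _ = _ * _ + _ * _
  ring

theorem bx_smul (ψ : E n → ℝ) (c : ℂ) (f : E n → ℂ) (y : E n) :
    bx ψ (c • f) y = c * bx ψ f y := by
  have key : ∀ j : Fin n, dz j (fun z => (Real.exp (-ψ z) : ℂ) * rs (lev ψ z) (dbv (c • f) z) j) y
      = c * dz j (fun z => (Real.exp (-ψ z) : ℂ) * rs (lev ψ z) (dbv f z) j) y := by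
    intro j
    rw [← dz_const_mul]
    congr 1
    funext z
    have e : dbv (c • f) z = c • dbv f z := by
      funext k
      exact db_const_mul c f z k
    rw [e, rs_smul]
    ring
  unfold bx
  rw [Finset.sum_congr rfl (fun j _ => key j), ← Finset.mul_sum]
  ring

end loc

variable {n : ℕ} {M : Type*} [TopologicalSpace M] [ChartedSpace (E n) M]

open Classical in
/-- cut to zero off the charts -/
def N (s : Fam n M ℂ) : Fam n M ℂ := fun e y =>
  if e ∈ atlas (E n) M ∧ y ∈ e.target then s e y else 0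

theorem N_apply (s : Fam n M ℂ) {e : Ch n M} (he : e ∈ atlas (E n) M) {y : E n}
    (hy : y ∈ e.target) : N s e y = s e y := if_pos ⟨he, hy⟩

theorem N_isSec {k : ℕ} {s : Fam n M ℂ} (hs : IsSec k s) : IsSec k (N s) := by
  refine ⟨fun e he => (hs.smooth e he).congr (fun y hy => N_apply s he hy), ?_⟩
  intro e he e' he' x hx
  rw [N_apply s he (e.map_source hx.1), N_apply s he' (e'.map_source hx.2)]
  exact hs.trans e he e' he' x hx

theorem fn_congr {φ : Fam n M ℝ} {f g : Fam n M ℂ}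
    (h : ∀ e ∈ atlas (E n) M, ∀ y ∈ e.target, f e y = g e y) (x : M) : fn φ f x = fn φ g x := by
  unfold fn
  rw [h _ (chart_mem_atlas (E n) x) _ (mem_chart_target (E n) x)]

theorem ip_congr [MeasurableSpace M] (μ : Measure M) (φ ψ : Fam n M ℝ) {s s' t t' : Fam n M ℂ}
    (h : ∀ e ∈ atlas (E n) M, ∀ y ∈ e.target, s e y = s' e y)
    (h' : ∀ e ∈ atlas (E n) M, ∀ y ∈ e.target, t e y = t' e y) :
    ip μ φ ψ s t = ip μ φ ψ s' t' := by
  unfold ip
  congr 1
  funext x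
  apply fn_congr
  intro e he y hy
  unfold pr
  rw [h e he y hy, h' e he y hy]

theorem ip_N_left [MeasurableSpace M] (μ : Measure M) (φ ψ : Fam n M ℝ) (s t : Fam n M ℂ) :
    ip μ φ ψ (N s) t = ip μ φ ψ s t :=
  ip_congr μ φ ψ (fun e he y hy => N_apply s he hy) (fun e he y hy => rfl)

theorem ip_N_right [MeasurableSpace M] (μ : Measure M) (φ ψ : Fam n M ℝ) (s t : Fam n M ℂ) :
    ip μ φ ψ s (N t) = ip μ φ ψ s t :=
  ip_congr μ φ ψ (fun e he y hy => rfl) (fun e he y hy => N_apply t he hy)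

theorem dp_conj [MeasurableSpace M] (μ : Measure M) (φ : Fam n M ℝ) {k : ℕ} {ψ : Fam n M ℝ}
    (hψ : IsPos k ψ) (s t : Fam n M ℂ) :
    (starRingEnd ℂ) (dp μ φ ψ s t) = dp μ φ ψ t s := by
  unfold dp
  rw [← integral_conj]
  congr 1
  funext x
  unfold fn en
  rw [map_mul, map_mul, cn_conj (hψ.pos _ (chart_mem_atlas (E n) x) _ (mem_chart_target (E n) x)),
    Complex.conj_ofReal, Complex.conj_ofReal]

variable [IsManifold 𝓘(ℂ, E n) ω M]

/-- the space of sections -/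
def Dsec (n : ℕ) (M : Type*) [TopologicalSpace M] [ChartedSpace (E n) M]
    [IsManifold 𝓘(ℂ, E n) ω M] (k : ℕ) : Submodule ℂ (Fam n M ℂ) where
  carrier := {s | IsSec k s}
  add_mem' := fun ha hb => IsSec.add ha hb
  zero_mem' := IsSec.zero k
  smul_mem' := fun c _ hs => IsSec.smul hs c

/-- the Laplacian on sections -/
def Lbox {k : ℕ} {ψ : Fam n M ℝ} (hψ : IsPos (k + 1) ψ) (a : Dsec n M k) : Dsec n M k :=
  ⟨N (box ψ a.1), N_isSec (box_isSec hψ a.2)⟩

theorem Lbox_add {k : ℕ} {ψ : Fam n M ℝ} (hψ : IsPos (k + 1) ψ) (a b : Dsec n M k) :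
    Lbox hψ (a + b) = Lbox hψ a + Lbox hψ b := by
  apply Subtype.ext
  show N (box ψ (a.1 + b.1)) = N (box ψ a.1) + N (box ψ b.1)
  funext e y
  show N (box ψ (a.1 + b.1)) e y = N (box ψ a.1) e y + N (box ψ b.1) e y
  by_cases h : e ∈ atlas (E n) M ∧ y ∈ e.target
  · rw [N_apply _ h.1 h.2, N_apply _ h.1 h.2, N_apply _ h.1 h.2]
    exact bx_add e.open_target (hψ.smooth e h.1) (hψ.pos e h.1) (a.2.smooth e h.1)
      (b.2.smooth e h.1) h.2
  · unfold N
    rw [if_neg h, if_neg h, if_neg h, add_zero]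

theorem Lbox_smul {k : ℕ} {ψ : Fam n M ℝ} (hψ : IsPos (k + 1) ψ) (c : ℂ) (a : Dsec n M k) :
    Lbox hψ (c • a) = c • Lbox hψ a := by
  apply Subtype.ext
  show N (box ψ (c • a.1)) = c • N (box ψ a.1)
  funext e y
  show N (box ψ (c • a.1)) e y = c * N (box ψ a.1) e y
  by_cases h : e ∈ atlas (E n) M ∧ y ∈ e.target
  · rw [N_apply _ h.1 h.2, N_apply _ h.1 h.2]
    exact bx_smul (ψ e) c (a.1 e) y
  · unfold N
    rw [if_neg h, if_neg h, mul_zero]

end B7b

open B7b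

variable {n : ℕ} {M : Type*} [TopologicalSpace M] [ChartedSpace (E n) M]
  [IsManifold 𝓘(ℂ, E n) ω M]
variable [CompactSpace M] [T2Space M]
variable [MeasurableSpace M] [BorelSpace M] {μ : Measure M} {φ : Fam n M ℝ}

/-- **Hörmander's theorem** for the powers of the anticanonical bundle of a compact complex
manifold. -/
theorem hormander (hφ : IsWeight 1 φ) (hμ : IsDens μ φ) {k : ℕ} {ψ : Fam n M ℝ}
    (hψ : IsPos (k + 1) ψ) {s : Fam n M ℂ} (hs : IsSec k s) :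
    ∃ h : Fam n M ℂ, IsHol k h ∧ (ip μ φ ψ (s - h) (s - h)).re ≤ (dp μ φ ψ s s).re ∧
      ∀ g : Fam n M ℂ, IsHol k g → ip μ φ ψ (s - h) g = 0 := by
  have hbox : ∀ a b : Dsec n M k, ip μ φ ψ (Lbox hψ a).1 b.1 = dp μ φ ψ a.1 b.1 := by
    intro a b
    show ip μ φ ψ (N (box ψ a.1)) b.1 = _
    rw [ip_N_left]
    exact ip_box hφ hμ hψ a.2 b.2
  have hbox' : ∀ a b : Dsec n M k, ip μ φ ψ a.1 (Lbox hψ b).1 = dp μ φ ψ a.1 b.1 := by
    intro a b
    rw [← ip_conj, hbox, dp_conj μ φ hψ]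
  obtain ⟨h, hO, -, h2, h3⟩ := hilbert_lemma (D := Dsec n M k)
    (fun a b => ip μ φ ψ a.1 b.1)
    (fun a b c => ip_add_left hφ hμ hψ.toIsWeight a.2 b.2 c.2)
    (fun z a b => ip_smul_left μ φ ψ z a.1 b.1)
    (fun a b => ip_conj μ φ ψ a.1 b.1)
    (fun a => ip_self_nonneg μ φ ψ a.1)
    (Lbox hψ) (Lbox_add hψ) (Lbox_smul hψ)
    (fun a b => by
      show ip μ φ ψ (Lbox hψ a).1 b.1 = ip μ φ ψ a.1 (Lbox hψ b).1
      rw [hbox, hbox'])
    (fun a => by
      show 0 ≤ (ip μ φ ψ (Lbox hψ a).1 a.1).re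
      rw [hbox]
      exact dp_self_nonneg hφ hμ hψ a.2)
    (fun a => by
      show (ip μ φ ψ (Lbox hψ a).1 a.1).re ≤ (ip μ φ ψ (Lbox hψ a).1 (Lbox hψ a).1).re
      rw [hbox]
      have h1 := bochner_global hφ hμ hψ a.2
      have e : ip μ φ ψ (Lbox hψ a).1 (Lbox hψ a).1 = ip μ φ ψ (box ψ a.1) (box ψ a.1) := by
        show ip μ φ ψ (N (box ψ a.1)) (N (box ψ a.1)) = _
        rw [ip_N_left, ip_N_right]
      rw [e]
      exact h1)
    {d | IsHol k d.1}
    (fun v hcau horth => by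
      obtain ⟨h, hh, hlim⟩ := lemR hφ hμ hψ (v := fun i => (v i).1) (fun i => (v i).2) hcau
        (fun u hu => by
          have h1 := horth ⟨u, hu⟩
          refine h1.congr (fun i => ?_)
          show ip μ φ ψ (v i).1 (N (box ψ u)) = _
          rw [ip_N_right])
      exact ⟨⟨h, hh.toIsSec⟩, hh, hlim⟩)
    ⟨s, hs⟩
  refine ⟨h.1, hO, ?_, ?_⟩
  · have h4 : (ip μ φ ψ (s - h.1) (s - h.1)).re ≤ (ip μ φ ψ (Lbox hψ ⟨s, hs⟩).1 s).re := h2
    rw [hbox ⟨s, hs⟩ ⟨s, hs⟩] at h4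
    exact h4
  · intro g hg
    refine h3 ⟨g, hg.toIsSec⟩ (fun u => ?_)
    show ip μ φ ψ g (Lbox hψ u).1 = 0
    rw [hbox' ⟨g, hg.toIsSec⟩ u]
    exact dp_hol hφ hμ hψ hg u.2

end Pool.Agent.helper63.NU
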