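import Pool.Agent.helper63.NU.Defs4
import Pool.Agent.helper9.NU.M1a
import Pool.Agent.helper40.NU.M1b

set_option autoImplicit false
set_option linter.all false

/-! Module M1c: the manifold is biholomorphic to the projective space. (helper41) -/

open MeasureTheory Filter Topology Set
open scoped ContDiff Manifold Matrix ENNReal ComplexOrder

noncomputable section

namespace Pool.Agent.helper63.NU

variable {n : ℕ} {M : Type*} [TopologicalSpace M] [ChartedSpace (E n) M]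
  [IsManifold 𝓘(ℂ, E n) ω M] {φ : Fam n M ℝ}

private theorem m1c_inj {z : (Fin (n + 1) → ℕ) → Fam n M ℂ} (hz : IsZ z) {Φ : M → CP n}
    (hΦ : ∀ e ∈ atlas (E n) M, ∀ x ∈ e.source, ∀ i : Fin (n + 1),
      (Φ x ∈ (CP.chart i).source ↔ z ((n + 1) • Pi.single i 1) e (e x) ≠ 0) ∧
      (z ((n + 1) • Pi.single i 1) e (e x) ≠ 0 → ∀ j : Fin n, CP.chart i (Φ x) j
        = z (n • Pi.single i 1 + Pi.single (i.succAbove j) 1) e (e x) /
          z ((n + 1) • Pi.single i 1) e (e x)))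
    (φ : Fam n M ℝ) {x x' : M} (hxx : Φ x = Φ x') :
    ∃ R : ℝ, 0 < R ∧ ∀ k : ℕ, 1 ≤ k → ∀ s ∈ H0 n M k, nrm k φ s x' = R ^ k * nrm k φ s x := by
  set e := chartAt (E n) x with he
  set e' := chartAt (E n) x' with he'
  have hea : e ∈ atlas (E n) M := chart_mem_atlas _ _
  have hea' : e' ∈ atlas (E n) M := chart_mem_atlas _ _
  have hx : x ∈ e.source := mem_chart_source _ _
  have hx' : x' ∈ e'.source := mem_chart_source _ _
  have hy : e x ∈ e.target := e.map_source hx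
  have hy' : e' x' ∈ e'.target := e'.map_source hx'
  obtain ⟨i, hi⟩ := hz.base e hea (e x) hy
  have h1 := hΦ e hea x hx i
  have h2 := hΦ e' hea' x' hx' i
  have hi' : z ((n + 1) • Pi.single i 1) e' (e' x') ≠ 0 := by
    rw [← h2.1, ← hxx, h1.1]
    exact hi
  have heq : ∀ j, z (n • Pi.single i 1 + Pi.single j 1) e (e x) /
      z ((n + 1) • Pi.single i 1) e (e x)
      = z (n • Pi.single i 1 + Pi.single j 1) e' (e' x') /
        z ((n + 1) • Pi.single i 1) e' (e' x') := by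
    intro j
    rcases eq_or_ne j i with rfl | hj
    · have hs : (n • Pi.single j 1 + Pi.single j 1 : Fin (n + 1) → ℕ) =
          (n + 1) • Pi.single j 1 := (succ_nsmul _ _).symm
      rw [hs, div_self hi, div_self hi']
    · obtain ⟨l, rfl⟩ := Fin.exists_succAbove_eq hj
      rw [← h1.2 hi l, ← h2.2 hi' l, hxx]
  obtain ⟨c, hc, hcs⟩ := z_prop hz hea hea' hy hy' hi hi' heq
  refine ⟨‖c‖ ^ 2 * Real.exp (-(φ e' (e' x') - φ e (e x))), by positivity, ?_⟩
  intro k hk s hs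
  show ‖s e' (e' x')‖ ^ 2 * Real.exp (-(k * φ e' (e' x'))) =
    (‖c‖ ^ 2 * Real.exp (-(φ e' (e' x') - φ e (e x)))) ^ k *
      (‖s e (e x)‖ ^ 2 * Real.exp (-(k * φ e (e x))))
  rw [hcs k hk s hs, norm_mul, norm_pow, mul_pow (‖c‖ ^ 2), ← Real.exp_nat_mul]
  have hexp : Real.exp (-(k * φ e' (e' x'))) =
      Real.exp (k * -(φ e' (e' x') - φ e (e x))) * Real.exp (-(k * φ e (e x))) := by
    rw [← Real.exp_add]
    congr 1
    ring
  rw [hexp]
  ring

theorem exists_diffeo [Nonempty M] [CompactSpace M] [T2Space M] (hφ : IsPos 1 φ)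
    (hz : ∃ z : (Fin (n + 1) → ℕ) → Fam n M ℂ, IsZ z)
    (hsep : ∀ x x' : M, x ≠ x' → ∃ k : ℕ, 1 ≤ k ∧ ∃ s ∈ H0 n M k, nrm k φ s x' < nrm k φ s x) :
    Nonempty (Diffeomorph 𝓘(ℂ, E n) 𝓘(ℂ, E n) M (CP n) ω) := by
  obtain ⟨z, hz⟩ := hz
  obtain ⟨Φ, hΦ⟩ := exists_map hz
  have hloc := map_local hz hΦ
  have hnn : ∀ (k : ℕ) (s : Fam n M ℂ) (x : M), 0 ≤ nrm k φ s x := fun k s x => by
    unfold nrm; positivity
  have hinj : Function.Injective Φ := by
    intro x x' hxx
    by_contra hne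
    obtain ⟨R, hR, hRs⟩ := m1c_inj hz hΦ φ hxx
    rcases le_total 1 R with h1 | h1
    · obtain ⟨k, hk, s, hs, hlt⟩ := hsep x x' hne
      have h2 := hRs k hk s hs
      have h3 : 1 ≤ R ^ k := one_le_pow₀ h1
      have h4 : nrm k φ s x ≤ R ^ k * nrm k φ s x := le_mul_of_one_le_left (hnn k s x) h3
      linarith
    · obtain ⟨k, hk, s, hs, hlt⟩ := hsep x' x (Ne.symm hne)
      have h2 := hRs k hk s hs
      have h3 : R ^ k ≤ 1 := pow_le_one₀ hR.le h1
      have h4 : R ^ k * nrm k φ s x ≤ nrm k φ s x := mul_le_of_le_one_left (hnn k s x) h3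
      linarith
  have hcont : Continuous Φ := hloc.contMDiff.continuous
  have hopen : IsOpen (range Φ) := hloc.isOpen_range
  have hclosed : IsClosed (range Φ) := (isCompact_range hcont).isClosed
  have hsurj : Function.Surjective Φ := by
    rw [← range_eq_univ]
    exact IsClopen.eq_univ ⟨hclosed, hopen⟩ (range_nonempty Φ)
  exact ⟨hloc.diffeomorphOfBijective ⟨hinj, hsurj⟩⟩

end Pool.Agent.helper63.NU
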